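import Mathlib
import Pool.Agent.H34.PLE.Glue

/-!
# Maximal arc families up to the pure mapping class group

Let `F` be the surface of genus `g` with `r` boundary components, each carrying one distinguished point, and with
`s` punctures.  A maximal arc family cuts `F` into triangles and once punctured monogons (an ideal triangulation
of `F`), and has `6 g + 4 r + 2 s - 6` arcs.

Its orbit under the pure mapping class group is recorded as follows.  At the distinguished point of the `i`-th
boundary component the ends of the arcs are linearly ordered by the orientation; write them down in this order,
followed by one item for the boundary component itself, first for the boundary component `0`, then for `1` and so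
on.  This gives a list of *items*; in `o : List ℕ` the `t`-th entry is the position of the other end of the arc
if the item `t` is an end of an arc, and it is `t` itself if the item `t` is a boundary component.
The *corner* `t` is the sector in front of the item `t` at its distinguished point (it is bounded by the items
`t - 1` and `t`, or by the boundary and the item `t`).  Following the item `t` one gets from the corner `t` to the
next corner of the same complementary region: it is the corner behind the other end of the arc, or the first
corner at the distinguished point if the item `t` is the boundary component.
The list `p` gives the corner in the monogon which contains the `j`-th puncture.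
-/

namespace Pool.Agent.H96.Arc

open Pool.Agent.H34.PLE

/-- the first corner at the distinguished point to which the corner `t` belongs -/
def start (o : List ℕ) : ℕ → ℕ
  | 0 => 0
  | t + 1 => if o.getD t 0 = t then t + 1 else start o t

/-- the next corner on the boundary of the region of the corner `t` -/
def next (o : List ℕ) (t : ℕ) : ℕ :=
  if o.getD t 0 = t then start o t else o.getD t 0 + 1

/-- the number of the boundary component to which the item `t` belongs -/
def window (o : List ℕ) : ℕ → ℕ
  | 0 => 0
  | t + 1 => if o.getD t 0 = t then window o t + 1 else window o t

/-- the number of arcs in a maximal arc family -/
def top (g r s : ℕ) : ℕ := 6 * g + 4 * r + 2 * s - 6

/-- The pair `(o, p)` describes a maximal arc family in the surface of genus `g` with `r` boundary components with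
one distinguished point each, and `s` punctures. -/
structure IsMax (g r s : ℕ) (o p : List ℕ) : Prop where
  /-- the number of items -/
  length : o.length = 2 * top g r s + r
  /-- the items which are ends of arcs come in pairs -/
  invol : ∀ t < o.length, o.getD t 0 < o.length ∧ o.getD (o.getD t 0) 0 = t
  /-- there are `r` boundary components, and the last item is the last boundary component -/
  bdry : window o o.length = r ∧ o.getD (o.length - 1) 0 = o.length - 1
  /-- the punctures lie in different regions, each of which is a monogon -/
  punct : p.length = s ∧ p.Nodup ∧ ∀ t ∈ p, t < o.length ∧ next o t = t
  /-- all other regions are triangles -/
  tri : ∀ t < o.length, t ∉ p → next o t ≠ t ∧ next o (next o (next o t)) = t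
  /-- the surface is connected: any set of boundary components which contains the first one and contains with one
  end of an arc also the other end contains all of them -/
  conn : ∀ U : Set ℕ, 0 ∈ U → (∀ t < o.length, window o t ∈ U → window o (o.getD t 0) ∈ U) → ∀ i < r, i ∈ U

/-- the arcs are numbered in the order of their first ends: list of the first ends of the arcs -/
def arcs (o : List ℕ) : List ℕ := (List.range o.length).filter fun t => t < o.getD t 0

/-- the new number of the position or corner `v` after the items `i` and `j` have been removed -/
def shift (i j v : ℕ) : ℕ := v - (if i < v then 1 else 0) - (if j < v then 1 else 0)

/-- the family after removing the arc with the ends `i < j` -/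
def remove (o : List ℕ) (i j : ℕ) : List ℕ := ((o.eraseIdx j).eraseIdx i).map (shift i j)

/-- auxiliary function for `region` -/
def regionAux (o : List ℕ) : ℕ → ℕ → List ℕ
  | 0, _ => []
  | n + 1, t => t :: regionAux o n (next o t)

/-- the corners (in increasing order) on the boundary cycle through the corner `c` -/
def region (o : List ℕ) (c : ℕ) : List ℕ :=
  (List.range o.length).filter fun t => t ∈ regionAux o o.length c

/-- The type (orbit under the pure mapping class group) of the family obtained from the maximal family `(o, p)` by
removing the arc number `a`: the items, and for every puncture the region in which it lies. -/
def del (o p : List ℕ) (a : ℕ) : List ℕ × List (List ℕ) :=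
  let i := (arcs o).getD a 0
  let j := o.getD i 0
  (remove o i j, p.map fun c => region (remove o i j) (shift i j c))

/-- The arc complex of the surface of genus `g` with `r` boundary components with one distinguished point each and
`s` punctures (for those surfaces for which it is a closed manifold): one simplex for every orbit of maximal arc
families under the pure mapping class group, its vertices are the arcs; two faces of codimension one are glued
(preserving the order of the arcs) if the families with one arc less are in the same orbit. -/
def arcComplex (g r s : ℕ) : Glue (top g r s - 1) where
  ι := {x : List ℕ × List ℕ // IsMax g r s x.1 x.2}
  face := fun x a => Encodable.encode (del x.1.1 x.1.2 a)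

end Pool.Agent.H96.Arc
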