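import Pool.Agent.H96.Arc.Main
import Pool.Agent.H96.Arc.A022C0

/-!
# The arc complex of the surface of genus 0 with 2 boundary components and 2 punctures
-/

set_option maxRecDepth 1000000

namespace Pool.Agent.H96.Arc.A022

open Pool.Agent.H34.PLE Pool.Agent.H96.Arc Pool.Agent.H96.Arc.K

/-- the facets -/
noncomputable def Fs : List Nat := F0

/-- the rows of names -/
noncomputable def Rs : List Nat := R0

/-- the states -/
noncomputable def Xs : List (List Nat) := X0

theorem hX : eqLL (srchF 2 node 0 0 0 0 6 2 0 0 0 []) Xs = true := by decide +kernel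

lemma c0 : Cov 14 2 38083600668303590433 true 14 X0 F0 :=
  coverX_spec (by decide +kernel) (by decide +kernel) _ _ cov0

lemma b0 : Blk 0 2 2 14 T 5 100 4 F0 R0 0 1180735736115243530369 :=
  Blk.of_chk (by decide) (by decide) (by decide) (by decide +kernel) blk0

theorem cov : Cov 14 2 38083600668303590433 true 14 Xs Fs := c0

theorem blk : Blk 0 2 2 14 T 5 100 4 Fs Rs 0 1180735736115243530369 := b0

/-- The arc complex of the surface is the gluing complex of the list of rows. -/
theorem homeo : PLHomeo (arcComplex 0 2 2) (glueL 5 24 Rs) :=
  main (L := 14) (by decide) (by decide) (by decide) (by decide) (by decide) (tinj_of_inc inc) 0 (by decide) (eq_of_eqLL hX)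
    (by decide +kernel) cov blk

end Pool.Agent.H96.Arc.A022
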