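import Pool.Agent.H96.Arc.Main
import Pool.Agent.H96.Arc.A031C0
import Pool.Agent.H96.Arc.A031C1
import Pool.Agent.H96.Arc.A031C2

/-!
# The arc complex of the surface of genus 0 with 3 boundary components and 1 punctures
-/

set_option maxRecDepth 1000000

namespace Pool.Agent.H96.Arc.A031

open Pool.Agent.H34.PLE Pool.Agent.H96.Arc Pool.Agent.H96.Arc.K

/-- the facets -/
noncomputable def Fs : List Nat := F0 ++ (F1 ++ F2)

/-- the rows of names -/
noncomputable def Rs : List Nat := R0 ++ (R1 ++ R2)

/-- the states -/
noncomputable def Xs : List (List Nat) := X0 ++ (X1 ++ X2)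

theorem hX : eqLL (srchF 3 node 5 0 0 0 8 1 0 0 0 []) Xs = true := by decide +kernel

lemma c0 : Cov 19 3 1277873588939747380541031457 false 14 X0 F0 :=
  coverX_spec (by decide +kernel) (by decide +kernel) _ _ cov0

lemma b0 : Blk 0 3 1 19 T 7 112 5 F0 R0 0 192444576685409150808679 :=
  Blk.of_chk (by decide) (by decide) (by decide) (by decide +kernel) blk0

lemma c1 : Cov 19 3 1277873588939747380541031457 false 14 X1 F1 :=
  coverX_spec (by decide +kernel) (by decide +kernel) _ _ cov1

lemma b1 : Blk 0 3 1 19 T 7 112 5 F1 R1 192444576685409150808679 4841608542415046406647397 :=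
  Blk.of_chk (by decide) (by decide) (by decide) (by decide +kernel) blk1

lemma c2 : Cov 19 3 1277873588939747380541031457 false 14 X2 F2 :=
  coverX_spec (by decide +kernel) (by decide +kernel) _ _ cov2

lemma b2 : Blk 0 3 1 19 T 7 112 5 F2 R2 4841608542415046406647397 1237943839464685622073408097 :=
  Blk.of_chk (by decide) (by decide) (by decide) (by decide +kernel) blk2

theorem cov : Cov 19 3 1277873588939747380541031457 false 14 Xs Fs := c0.append (c1.append c2)

theorem blk : Blk 0 3 1 19 T 7 112 5 Fs Rs 0 1237943839464685622073408097 := b0.append (b1.append b2)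

/-- The arc complex of the surface is the gluing complex of the list of rows. -/
theorem homeo : PLHomeo (arcComplex 0 3 1) (glueL 7 24 Rs) :=
  main (L := 19) (by decide) (by decide) (by decide) (by decide) (by decide) (tinj_of_inc inc) 5 (by decide) (eq_of_eqLL hX)
    (by decide +kernel) cov blk

end Pool.Agent.H96.Arc.A031
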