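import Pool.Agent.H96.Arc.Main
import Pool.Agent.H96.Arc.A040C0
import Pool.Agent.H96.Arc.A040C1
import Pool.Agent.H96.Arc.A040C2
import Pool.Agent.H96.Arc.A040C3
import Pool.Agent.H96.Arc.A040C4
import Pool.Agent.H96.Arc.A040C5
import Pool.Agent.H96.Arc.A040C6
import Pool.Agent.H96.Arc.A040C7
import Pool.Agent.H96.Arc.A040C8
import Pool.Agent.H96.Arc.A040C9
import Pool.Agent.H96.Arc.A040C10
import Pool.Agent.H96.Arc.A040C11
import Pool.Agent.H96.Arc.A040C12
import Pool.Agent.H96.Arc.A040C13
import Pool.Agent.H96.Arc.A040C14
import Pool.Agent.H96.Arc.A040C15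

/-!
# The arc complex of the surface of genus 0 with 4 boundary components and 0 punctures
-/

set_option maxRecDepth 1000000

namespace Pool.Agent.H96.Arc.A040

open Pool.Agent.H34.PLE Pool.Agent.H96.Arc Pool.Agent.H96.Arc.K

/-- the facets -/
noncomputable def Fs : List Nat := F0 ++ (F1 ++ (F2 ++ (F3 ++ (F4 ++ (F5 ++ (F6 ++ (F7 ++ (F8 ++ (F9 ++ (F10 ++ (F11 ++ (F12 ++ (F13 ++ (F14 ++ F15))))))))))))))

/-- the rows of names -/
noncomputable def Rs : List Nat := R0 ++ (R1 ++ (R2 ++ (R3 ++ (R4 ++ (R5 ++ (R6 ++ (R7 ++ (R8 ++ (R9 ++ (R10 ++ (R11 ++ (R12 ++ (R13 ++ (R14 ++ R15))))))))))))))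

/-- the states -/
noncomputable def Xs : List (List Nat) := X0 ++ (X1 ++ (X2 ++ (X3 ++ (X4 ++ (X5 ++ (X6 ++ (X7 ++ (X8 ++ (X9 ++ (X10 ++ (X11 ++ (X12 ++ (X13 ++ (X14 ++ X15))))))))))))))

theorem hX : eqLL (srchF 4 node 8 0 0 0 10 0 0 0 0 []) Xs = true := by decide +kernel

lemma c0 : Cov 24 4 42878322444674705577542163234849825 false 16 X0 F0 :=
  coverX_spec (by decide +kernel) (by decide +kernel) _ _ cov0

lemma b0 : Blk 0 4 0 24 T 8 112 6 F0 R0 0 9898190829949416244390072 :=
  Blk.of_chk (by decide) (by decide) (by decide) (by decide +kernel) blk0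

lemma c1 : Cov 24 4 42878322444674705577542163234849825 false 16 X1 F1 :=
  coverX_spec (by decide +kernel) (by decide +kernel) _ _ cov1

lemma b1 : Blk 0 4 0 24 T 8 112 6 F1 R1 9898190829949416244390072 270988687540167923586206168 :=
  Blk.of_chk (by decide) (by decide) (by decide) (by decide +kernel) blk1

lemma c2 : Cov 24 4 42878322444674705577542163234849825 false 16 X2 F2 :=
  coverX_spec (by decide +kernel) (by decide +kernel) _ _ cov2

lemma b2 : Blk 0 4 0 24 T 8 112 6 F2 R2 270988687540167923586206168 1237948718818629466934742584 :=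
  Blk.of_chk (by decide) (by decide) (by decide) (by decide +kernel) blk2

lemma c3 : Cov 24 4 42878322444674705577542163234849825 false 16 X3 F3 :=
  coverX_spec (by decide +kernel) (by decide +kernel) _ _ cov3

lemma b3 : Blk 0 4 0 24 T 8 112 6 F3 R3 1237948718818629466934742584 7427984976836702495249533496 :=
  Blk.of_chk (by decide) (by decide) (by decide) (by decide +kernel) blk3

lemma c4 : Cov 24 4 42878322444674705577542163234849825 false 16 X4 F4 :=
  coverX_spec (by decide +kernel) (by decide +kernel) _ _ cov4

lemma b4 : Blk 0 4 0 24 T 8 112 6 F4 R4 7427984976836702495249533496 7432487818694347126642226648 :=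
  Blk.of_chk (by decide) (by decide) (by decide) (by decide +kernel) blk4

lemma c5 : Cov 24 4 42878322444674705577542163234849825 false 16 X5 F5 :=
  coverX_spec (by decide +kernel) (by decide +kernel) _ _ cov5

lemma b5 : Blk 0 4 0 24 T 8 112 6 F5 R5 7432487818694347126642226648 79228510788805046629220125848 :=
  Blk.of_chk (by decide) (by decide) (by decide) (by decide +kernel) blk5

lemma c6 : Cov 24 4 42878322444674705577542163234849825 false 16 X6 F6 :=
  coverX_spec (by decide +kernel) (by decide +kernel) _ _ cov6

lemma b6 : Blk 0 4 0 24 T 8 112 6 F6 R6 79228510788805046629220125848 198070754563647760101122935256 :=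
  Blk.of_chk (by decide) (by decide) (by decide) (by decide +kernel) blk6

lemma c7 : Cov 24 4 42878322444674705577542163234849825 false 16 X7 F7 :=
  coverX_spec (by decide +kernel) (by decide +kernel) _ _ cov7

lemma b7 : Blk 0 4 0 24 T 8 112 6 F7 R7 198070754563647760101122935256 198148117666390448344076569208 :=
  Blk.of_chk (by decide) (by decide) (by decide) (by decide +kernel) blk7

lemma c8 : Cov 24 4 42878322444674705577542163234849825 false 16 X8 F8 :=
  coverX_spec (by decide +kernel) (by decide +kernel) _ _ cov8

lemma b8 : Blk 0 4 0 24 T 8 112 6 F8 R8 198148117666390448344076569208 1267656992223355812295315475064 :=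
  Blk.of_chk (by decide) (by decide) (by decide) (by decide +kernel) blk8

lemma c9 : Cov 24 4 42878322444674705577542163234849825 false 16 X9 F9 :=
  coverX_spec (by decide +kernel) (by decide +kernel) _ _ cov9

lemma b9 : Blk 0 4 0 24 T 8 112 6 F9 R9 1267656992223355812295315475064 5070602749189751745948425755096 :=
  Blk.of_chk (by decide) (by decide) (by decide) (by decide +kernel) blk9

lemma c10 : Cov 24 4 42878322444674705577542163234849825 false 16 X10 F10 :=
  coverX_spec (by decide +kernel) (by decide +kernel) _ _ cov10

lemma b10 : Blk 0 4 0 24 T 8 112 6 F10 R10 5070602749189751745948425755096 5070873396569940285267838156312 :=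
  Blk.of_chk (by decide) (by decide) (by decide) (by decide +kernel) blk10

lemma c11 : Cov 24 4 42878322444674705577542163234849825 false 16 X11 F11 :=
  coverX_spec (by decide +kernel) (by decide +kernel) _ _ cov11

lemma b11 : Blk 0 4 0 24 T 8 112 6 F11 R11 5070873396569940285267838156312 5149830791405888441606272109176 :=
  Blk.of_chk (by decide) (by decide) (by decide) (by decide +kernel) blk11

lemma c12 : Cov 24 4 42878322444674705577542163234849825 false 16 X12 F12 :=
  coverX_spec (by decide +kernel) (by decide +kernel) _ _ cov12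

lemma b12 : Blk 0 4 0 24 T 8 112 6 F12 R12 5149830791405888441606272109176 121694457970189466340195578186392 :=
  Blk.of_chk (by decide) (by decide) (by decide) (by decide +kernel) blk12

lemma c13 : Cov 24 4 42878322444674705577542163234849825 false 16 X13 F13 :=
  coverX_spec (by decide +kernel) (by decide +kernel) _ _ cov13

lemma b13 : Blk 0 4 0 24 T 8 112 6 F13 R13 121694457970189466340195578186392 121694612404864037138743925852792 :=
  Blk.of_chk (by decide) (by decide) (by decide) (by decide +kernel) blk13

lemma c14 : Cov 24 4 42878322444674705577542163234849825 false 16 X14 F14 :=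
  coverX_spec (by decide +kernel) (by decide +kernel) _ _ cov14

lemma b14 : Blk 0 4 0 24 T 8 112 6 F14 R14 121694612404864037138743925852792 121701885602423959673572288450008 :=
  Blk.of_chk (by decide) (by decide) (by decide) (by decide +kernel) blk14

lemma c15 : Cov 24 4 42878322444674705577542163234849825 false 16 X15 F15 :=
  coverX_spec (by decide +kernel) (by decide +kernel) _ _ cov15

lemma b15 : Blk 0 4 0 24 T 8 112 6 F15 R15 121701885602423959673572288450008 121736702326059629608035627485816 :=
  Blk.of_chk (by decide) (by decide) (by decide) (by decide +kernel) blk15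

theorem cov : Cov 24 4 42878322444674705577542163234849825 false 16 Xs Fs := c0.append (c1.append (c2.append (c3.append (c4.append (c5.append (c6.append (c7.append (c8.append (c9.append (c10.append (c11.append (c12.append (c13.append (c14.append c15))))))))))))))

theorem blk : Blk 0 4 0 24 T 8 112 6 Fs Rs 0 121736702326059629608035627485816 := b0.append (b1.append (b2.append (b3.append (b4.append (b5.append (b6.append (b7.append (b8.append (b9.append (b10.append (b11.append (b12.append (b13.append (b14.append b15))))))))))))))

/-- The arc complex of the surface is the gluing complex of the list of rows. -/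
theorem homeo : PLHomeo (arcComplex 0 4 0) (glueL 9 24 Rs) :=
  main (L := 24) (by decide) (by decide) (by decide) (by decide) (by decide) (tinj_of_inc inc) 8 (by decide) (eq_of_eqLL hX)
    (by decide +kernel) cov blk

end Pool.Agent.H96.Arc.A040
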