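import Pool.Agent.H96.Arc.Kern

/-!
# Kernel functions for checking lists of facets

A facet is coded by a number `F` whose digits in base `32` are: the `L` entries of `o`, the `s` entries of `p`, and
`r - 1` positions which show that the surface is connected.
-/

namespace Pool.Agent.H96.Arc.K

noncomputable section

/-- Compute the start of the current window, the number of windows, the table of the next corners, the table of the
windows and the sort key, and check that `o` is an involution. -/
def scan (L F : Nat) (n : Nat) : Nat → Nat → Nat → Nat → Nat → Nat → (Nat → Nat → Nat → Nat → Bool) → Bool :=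
  Nat.rec (motive := fun _ => Nat → Nat → Nat → Nat → Nat → Nat → (Nat → Nat → Nat → Nat → Bool) → Bool)
    (fun _ _ w NX WT E κ => κ w NX WT E)
    (fun _ ih t S w NX WT E κ =>
      force (dig F t) fun d =>
      force (Nat.lor WT (Nat.shiftLeft w (Nat.mul 5 t))) fun WT' =>
      cond (Nat.beq d t)
        (force (Nat.lor NX (Nat.shiftLeft S (Nat.mul 5 t))) fun NX' =>
         force (Nat.add (Nat.mul 32 E) (Nat.succ t)) fun E' => ih (Nat.succ t) (Nat.succ t) (Nat.succ w) NX' WT' E' κ)
        (cond (Nat.blt d L)
          (cond (Nat.beq (dig F d) t)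
            (force (Nat.lor NX (Nat.shiftLeft (Nat.succ d) (Nat.mul 5 t))) fun NX' =>
             force (Nat.add (Nat.mul 32 E) (cond (Nat.ble d t) (Nat.succ d) 0)) fun E' =>
             ih (Nat.succ t) S w NX' WT' E' κ) false) false)) n

/-- The punctures lie in different monogons. -/
def pun (L P NX : Nat) (n : Nat) : Nat → Nat → (Nat → Bool) → Bool :=
  Nat.rec (motive := fun _ => Nat → Nat → (Nat → Bool) → Bool) (fun _ M κ => κ M)
    (fun _ ih j M κ => force (dig P j) fun c =>
      cond (Nat.blt c L) (cond (Nat.beq (dig NX c) c) (cond (tst M c) false (ih (Nat.succ j) (Nat.lor M (Nat.pow 2 c)) κ))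
        false) false) n

/-- All other regions are triangles. -/
def tri (NX M : Nat) (n : Nat) : Bool :=
  Nat.rec (motive := fun _ => Bool) true (fun t ih =>
    force (dig NX t) fun c => cond (Nat.beq c t) (cond (tst M t) ih false)
      (cond (tst M t) false (cond (Nat.beq (dig NX (dig NX c)) t) ih false))) n

/-- The surface is connected. -/
def con (L F X WT full : Nat) (n : Nat) : Nat → Nat → Bool :=
  Nat.rec (motive := fun _ => Nat → Nat → Bool) (fun _ R => Nat.beq R full)
    (fun _ ih k R => force (dig X k) fun t =>
      cond (Nat.blt t L) (cond (tst R (dig WT t)) (force (Nat.lor R (Nat.pow 2 (dig WT (dig F t)))) fun R' =>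
        ih (Nat.succ k) R') false) false) n

/-- The number `F` codes a maximal arc family, continue with the sort key. -/
def valid (L r s F : Nat) (κ : Nat → Bool) : Bool :=
  scan L F L 0 0 0 0 0 0 fun w NX WT E =>
    cond (Nat.beq w r) (cond (Nat.beq (dig F (Nat.pred L)) (Nat.pred L))
      (pun L (Nat.shiftRight F (Nat.mul 5 L)) NX s 0 0 fun M =>
        cond (tri NX M L)
          (cond (con L F (Nat.shiftRight F (Nat.mul 5 (Nat.add L s))) WT (Nat.pred (Nat.pow 2 r)) (Nat.pred r) 0 1)
            (κ (Nat.add (Nat.mul E (Nat.pow 32 s)) (Nat.mod (Nat.shiftRight F (Nat.mul 5 L)) (Nat.pow 32 s)))) false)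
          false) false) false

/-- one pass of the closure of a set of windows -/
def pass (F WT : Nat) (n : Nat) : Nat → Nat :=
  Nat.rec (motive := fun _ => Nat → Nat) (fun R => R) (fun t ih R =>
    cond (tst R (dig WT t)) (force (Nat.lor R (Nat.pow 2 (dig WT (dig F t)))) fun R' => ih R') (ih R)) n

/-- the set of windows is closed -/
def clo (F WT R : Nat) (n : Nat) : Bool :=
  Nat.rec (motive := fun _ => Bool) true (fun t ih =>
    cond (tst R (dig WT t)) (cond (tst R (dig WT (dig F t))) ih false) ih) n

/-- The surface of the code `C` of the search is not connected. -/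
def disc (L r one C : Nat) : Bool :=
  force (Nat.sub C one) fun F => scan L F L 0 0 0 0 0 0 fun _ _ WT _ =>
    force (Nat.rec (motive := fun _ => Nat → Nat) (fun R => R) (fun _ ih R => force (pass F WT L R) fun R' => ih R') r 1)
      fun R => cond (clo F WT R L) (cond (tst R 0) (Nat.blt R (Nat.pred (Nat.pow 2 r))) false) false

/-- Every code in the list is disconnected, or corresponds to the next one (or two, if `two`) facets; continue with
the other facets. -/
def cover (L r one pL : Nat) (two : Bool) (l : List Nat) : List Nat → (List Nat → Bool) → Bool :=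
  List.rec (motive := fun _ => List Nat → (List Nat → Bool) → Bool) (fun Fs κ => κ Fs)
    (fun C _ ih Fs κ => List.rec (motive := fun _ => Bool) (cond (disc L r one C) (ih [] κ) false)
      (fun F Fs' _ => cond (Nat.beq (Nat.add (Nat.mod F pL) one) C)
        (cond two (List.rec (motive := fun _ => Bool) false
          (fun F2 Fs'' _ => cond (Nat.beq (Nat.add (Nat.mod F2 pL) one) C) (ih Fs'' κ) false) Fs') (ih Fs' κ))
        (cond (disc L r one C) (ih (F :: Fs') κ) false)) Fs) l

/-- The facets found from the states in the list `X` are those in the list. -/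
def coverX (L r one pL : Nat) (two : Bool) (n : Nat) (X : List (List Nat)) : List Nat → Bool :=
  List.rec (motive := fun _ => List Nat → Bool)
    (fun Fs => List.rec (motive := fun _ => Bool) true (fun _ _ _ => false) Fs)
    (fun x _ ih Fs => cover L r one pL two (srchL r n x) Fs ih) X

/-! ### names -/

/-- the table of the numbers `∑_{v > k} 32 ^ (o v)` in base `2 ^ 128` -/
def cum (F : Nat) (n : Nat) : Nat → Nat → Nat :=
  Nat.rec (motive := fun _ => Nat → Nat → Nat) (fun W _ => W)
    (fun k ih W S => force (Nat.lor (Nat.shiftLeft W 128) S) fun W' => force (Nat.add S (Nat.pow 32 (dig F k))) fun S' =>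
      ih W' S') n

/-- the first ends of the arcs -/
def opn (F : Nat) (n : Nat) : List Nat → List Nat :=
  Nat.rec (motive := fun _ => List Nat → List Nat) (fun acc => acc)
    (fun t ih acc => cond (Nat.blt t (dig F t)) (ih (t :: acc)) (ih acc)) n

/-- remove the digit `k` -/
def del1 (X k : Nat) : Nat :=
  Nat.add (Nat.mod X (Nat.pow 32 k)) (Nat.shiftLeft (Nat.shiftRight X (Nat.mul 5 (Nat.succ k))) (Nat.mul 5 k))

/-- the code of the items after removing the arc with first end `i` and other end `j` -/
def nm (F0 W i j : Nat) : Nat :=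
  del1 (del1 (Nat.sub (Nat.sub F0 (Nat.mod (Nat.shiftRight W (Nat.mul 128 i)) (Nat.pow 2 128)))
    (Nat.mod (Nat.shiftRight W (Nat.mul 128 j)) (Nat.pow 2 128))) j) i

/-- start of the window -/
def stt (R : Nat) (c : Nat) : Nat :=
  Nat.rec (motive := fun _ => Nat) 0 (fun t ih => cond (Nat.beq (dig R t) t) (Nat.succ t) ih) c

/-- next corner -/
def nxt (R c : Nat) : Nat := cond (Nat.beq (dig R c) c) (stt R c) (Nat.succ (dig R c))

/-- new number of a corner -/
def shf (i j v : Nat) : Nat := Nat.sub (Nat.sub v (cond (Nat.blt i v) 1 0)) (cond (Nat.blt j v) 1 0)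

/-- the sets of the corners of the regions of the punctures, if these regions have at most two corners -/
def rgn (L P R i j : Nat) (n : Nat) : Nat → (Nat → Bool) → Bool :=
  Nat.rec (motive := fun _ => Nat → (Nat → Bool) → Bool) (fun M κ => κ M)
    (fun k ih M κ => force (shf i j (dig P k)) fun c => force (nxt R c) fun c' =>
      cond (Nat.blt c (Nat.pred (Nat.pred L))) (cond (Nat.blt c' (Nat.pred (Nat.pred L))) (cond (Nat.beq (nxt R c') c)
        (ih (Nat.lor (Nat.shiftLeft M L) (Nat.lor (Nat.pow 2 c) (Nat.pow 2 c'))) κ) false) false) false) n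

/-- search tree of names -/
inductive Tr
  | l (x : Nat)
  | n (a b : Tr)

/-- the name with number `k` of a tree of depth `d` with `2 ^ w` names of `b` bits per leaf: bits `d - 1, ..., 0` of
`k / 2 ^ w` are the path -/
def Tr.get (w b : Nat) (t : Tr) : Nat → Nat → Nat :=
  Tr.rec (motive := fun _ => Nat → Nat → Nat)
    (fun x _ k => Nat.mod (Nat.shiftRight x (Nat.mul b (Nat.mod k (Nat.pow 2 w)))) (Nat.pow 2 b))
    (fun _ _ iha ihb d k => cond (tst k (Nat.add w (Nat.pred d))) (ihb (Nat.pred d) k) (iha (Nat.pred d) k)) t

/-- the names of a facet -/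
def nms (T : Tr) (tw tb td L s F0 P W : Nat) (l : List Nat) : Nat → Bool :=
  List.rec (motive := fun _ => Nat → Bool) (fun _ => true)
    (fun i _ ih R => force (dig F0 i) fun j => force (nm F0 W i j) fun X =>
      rgn L P X i j s 0 fun M => force (Nat.mod R (Nat.pow 2 24)) fun k =>
        cond (Nat.blt k (Nat.pow 2 (Nat.add tw td)))
          (cond (Nat.beq (T.get tw tb td k) (Nat.add X (Nat.shiftLeft M (Nat.mul 5 L))))
            (ih (Nat.shiftRight R 24)) false) false) l

/-- Check a list of facets with increasing keys above `k` and their rows of names; continue with the last key. -/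
def chk (T : Tr) (tw tb td L r s pL : Nat) (l : List Nat) : List Nat → Nat → (Nat → Bool) → Bool :=
  List.rec (motive := fun _ => List Nat → Nat → (Nat → Bool) → Bool)
    (fun Rs k κ => List.rec (motive := fun _ => Bool) (κ k) (fun _ _ _ => false) Rs)
    (fun F _ ih Rs k κ => List.rec (motive := fun _ => Bool) false
      (fun R Rs' _ => valid L r s F fun k' => cond (Nat.blt k k')
        (force (Nat.mod F pL) fun F0 => force (cum F0 L 0 0) fun W =>
          cond (nms T tw tb td L s F0 (Nat.shiftRight F (Nat.mul 5 L)) W (opn F0 L []) R) (ih Rs' k' κ) false) false) Rs) l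

/-- The names of a leaf increase from above `lo`. -/
def incL (b : Nat) (n : Nat) : Nat → Nat → (Nat → Bool) → Bool :=
  Nat.rec (motive := fun _ => Nat → Nat → (Nat → Bool) → Bool) (fun _ lo κ => κ lo)
    (fun _ ih x lo κ => force (Nat.mod x (Nat.pow 2 b)) fun y =>
      cond (Nat.blt lo y) (ih (Nat.shiftRight x b) y κ) false) n

/-- The names in the tree increase, and the tree has depth `d`. -/
def Tr.inc (w b : Nat) (t : Tr) : Nat → Nat → (Nat → Bool) → Bool :=
  Tr.rec (motive := fun _ => Nat → Nat → (Nat → Bool) → Bool)
    (fun x d lo κ => cond (Nat.beq d 0) (incL b (Nat.pow 2 w) x lo κ) false)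
    (fun _ _ iha ihb d lo κ => Nat.rec (motive := fun _ => Bool) false
      (fun d' _ => iha d' lo fun mid => ihb d' mid κ) d) t

end

end Pool.Agent.H96.Arc.K
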