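import Pool.Agent.H96.Arc.Search
import Pool.Agent.H96.Arc.Kern2

/-!
# Soundness of the checks of the lists of facets
-/

namespace Pool.Agent.H96.Arc

open Pool.Agent.H34.PLE K

lemma bif_false {c a : Bool} : (bif c then a else false) = true ↔ c = true ∧ a = true := by
  cases c <;> simp

lemma beq_true {x y : ℕ} : Nat.beq x y = true ↔ x = y := ⟨Nat.eq_of_beq_eq_true, fun h => by rw [h]; exact Nat.beq_refl y⟩

lemma blt_true {x y : ℕ} : Nat.blt x y = true ↔ x < y :=
  ⟨fun h => Nat.le_of_ble_eq_true h, fun h => Nat.ble_eq_true_of_le h⟩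

lemma ble_true {x y : ℕ} : Nat.ble x y = true ↔ x ≤ y := ⟨Nat.le_of_ble_eq_true, Nat.ble_eq_true_of_le⟩

/-! ### decoding -/

/-- the list of the first digits -/
def dec (n F : ℕ) : List ℕ := (List.range n).map (dig F)

lemma dec_length (n F : ℕ) : (dec n F).length = n := by simp [dec]

lemma dec_getD {n F t : ℕ} (h : t < n) : (dec n F).getD t 0 = dig F t := by
  unfold dec
  rw [List.getD_eq_getElem?_getD, List.getElem?_map, List.getElem?_range h]
  rfl

lemma dec_eq {n F : ℕ} {o : List ℕ} (ho : o.length = n) (h : ∀ t < n, dig F t = o.getD t 0) : dec n F = o := by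
  apply List.ext_getElem
  · rw [dec_length, ho]
  · intro t h1 h2
    have h3 := h t (by rwa [← ho])
    have h4 : (dec n F)[t] = dig F t := by simp [dec]
    rw [h4, h3, List.getD_eq_getElem _ _ h2]

lemma mem_dec {n F x : ℕ} : x ∈ dec n F ↔ ∃ t < n, dig F t = x := by
  unfold dec
  simp [List.mem_map]

/-! ### scan -/

/-- the sort key of the items -/
def ek (F : ℕ) : ℕ → ℕ
  | 0 => 0
  | t + 1 => 32 * ek F t + bif Nat.ble (dig F t) t then dig F t + 1 else 0

variable {L F : ℕ}

lemma scan_succ (n t S w NX WT E : ℕ) (κ : ℕ → ℕ → ℕ → ℕ → Bool) : scan L F (n + 1) t S w NX WT E κ =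
    bif Nat.beq (dig F t) t then scan L F n (t + 1) (t + 1) (w + 1) (NX ||| S <<< (5 * t)) (WT ||| w <<< (5 * t))
      (32 * E + (t + 1)) κ
    else bif Nat.blt (dig F t) L then bif Nat.beq (dig F (dig F t)) t then
      scan L F n (t + 1) S w (NX ||| (dig F t + 1) <<< (5 * t)) (WT ||| w <<< (5 * t))
        (32 * E + bif Nat.ble (dig F t) t then dig F t + 1 else 0) κ else false else false := by
  show force (dig F t) (fun d => force (Nat.lor WT (Nat.shiftLeft w (Nat.mul 5 t))) fun WT' =>
      cond (Nat.beq d t)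
        (force (Nat.lor NX (Nat.shiftLeft S (Nat.mul 5 t))) fun NX' =>
         force (Nat.add (Nat.mul 32 E) (Nat.succ t)) fun E' =>
          scan L F n (Nat.succ t) (Nat.succ t) (Nat.succ w) NX' WT' E' κ)
        (cond (Nat.blt d L)
          (cond (Nat.beq (dig F d) t)
            (force (Nat.lor NX (Nat.shiftLeft (Nat.succ d) (Nat.mul 5 t))) fun NX' =>
             force (Nat.add (Nat.mul 32 E) (cond (Nat.ble d t) (Nat.succ d) 0)) fun E' =>
             scan L F n (Nat.succ t) S w NX' WT' E' κ) false) false)) = _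
  simp only [force_eq]
  rfl

/-- the table `X` has the entries `f` -/
def Tab (n : ℕ) (X : ℕ) (f : ℕ → ℕ) : Prop := ∀ x, dg 5 X x = if x < n then f x else 0

lemma Tab.put {n X : ℕ} {f : ℕ → ℕ} (h : Tab n X f) {v : ℕ} (hv : v < 32) (hf : f n = v) :
    Tab (n + 1) (X ||| v <<< (5 * n)) f := by
  intro x
  rw [dg_put _ _ _ _ hv, h x]
  by_cases h1 : x = n
  · rw [if_neg (by omega), if_pos h1, if_pos (by omega), h1, hf, Nat.zero_or]
  · rw [if_neg h1, Nat.or_zero]
    by_cases h2 : x < n
    · rw [if_pos h2, if_pos (by omega)]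
    · rw [if_neg h2, if_neg (by omega)]

lemma window_le (o : List ℕ) (t : ℕ) : window o t ≤ t := by
  induction t with
  | zero => exact le_refl _
  | succ t ih => rw [window_succ]; split_ifs <;> omega

theorem scan_spec (hL : L < 32) {κ : ℕ → ℕ → ℕ → ℕ → Bool} (n : ℕ) : ∀ (t S w NX WT E : ℕ), t + n = L →
    S = start (dec L F) t → w = window (dec L F) t → E = ek F t → Tab t NX (next (dec L F)) →
    Tab t WT (window (dec L F)) → scan L F n t S w NX WT E κ = true →
    (∀ x, t ≤ x → x < L → dig F x < L ∧ dig F (dig F x) = x) ∧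
      ∃ NX' WT', Tab L NX' (next (dec L F)) ∧ Tab L WT' (window (dec L F)) ∧
        κ (window (dec L F) L) NX' WT' (ek F L) = true := by
  induction n with
  | zero =>
    intro t S w NX WT E ht hS hw hE hN hW h
    have : t = L := by omega
    subst this
    refine ⟨fun x h1 h2 => by omega, NX, WT, hN, hW, ?_⟩
    rw [← hw, ← hE]
    exact h
  | succ n ih =>
    intro t S w NX WT E ht hS hw hE hN hW h
    have htL : t < L := by omega
    have hd := dec_getD (F := F) htL
    rw [scan_succ] at h
    have hW' : Tab (t + 1) (WT ||| w <<< (5 * t)) (window (dec L F)) :=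
      hW.put (by have := window_le (dec L F) t; omega) hw.symm
    cases hb : Nat.beq (dig F t) t
    · rw [hb] at h
      have hb' : dig F t ≠ t := fun h1 => by rw [beq_true.mpr h1] at hb; exact absurd hb (by simp)
      rw [cond_false, bif_false, bif_false, blt_true, beq_true] at h
      obtain ⟨h1, h2, h3⟩ := h
      have hN' : Tab (t + 1) (NX ||| (dig F t + 1) <<< (5 * t)) (next (dec L F)) :=
        hN.put (by omega) (by rw [next_of_ne (by rw [hd]; exact hb'), hd])
      obtain ⟨h4, h5⟩ := ih (t + 1) S w _ _ _ (by omega) (by rw [start_succ, if_neg (by rw [hd]; exact hb'), hS])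
        (by rw [window_succ, if_neg (by rw [hd]; exact hb'), hw]) (by rw [ek, hE]) hN' hW' h3
      refine ⟨fun x hx hxL => ?_, h5⟩
      rcases Nat.lt_or_ge t x with h6 | h6
      · exact h4 x h6 hxL
      · have : x = t := by omega
        subst this
        exact ⟨h1, h2⟩
    · rw [hb] at h
      have hb' := beq_true.mp hb
      rw [cond_true] at h
      have hN' : Tab (t + 1) (NX ||| S <<< (5 * t)) (next (dec L F)) :=
        hN.put (by have := start_le (dec L F) t; omega) (by rw [next_of_eq (by rw [hd]; exact hb'), hS])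
      obtain ⟨h4, h5⟩ := ih (t + 1) (t + 1) (w + 1) _ _ _ (by omega)
        (by rw [start_succ, if_pos (by rw [hd]; exact hb')])
        (by rw [window_succ, if_pos (by rw [hd]; exact hb'), hw])
        (by rw [ek, hE, hb', ble_true.mpr (le_refl t), cond_true]) hN' hW' h
      refine ⟨fun x hx hxL => ?_, h5⟩
      rcases Nat.lt_or_ge t x with h6 | h6
      · exact h4 x h6 hxL
      · have : x = t := by omega
        subst this
        rw [hb', hb']
        exact ⟨hxL, rfl⟩

lemma tab_zero (f : ℕ → ℕ) : Tab 0 0 f := fun x => by rw [dg_zero, if_neg (by omega)]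

theorem scan_spec0 (hL : L < 32) {κ : ℕ → ℕ → ℕ → ℕ → Bool} (h : scan L F L 0 0 0 0 0 0 κ = true) :
    (∀ x < L, dig F x < L ∧ dig F (dig F x) = x) ∧
      ∃ NX' WT', Tab L NX' (next (dec L F)) ∧ Tab L WT' (window (dec L F)) ∧
        κ (window (dec L F) L) NX' WT' (ek F L) = true := by
  obtain ⟨h1, h2⟩ := scan_spec hL L 0 0 0 0 0 0 (by omega) rfl rfl rfl (tab_zero _) (tab_zero _) h
  exact ⟨fun x hx => h1 x (Nat.zero_le _) hx, h2⟩

/-! ### punctures and triangles -/

variable {P NX : ℕ}

lemma pun_succ (n j M : ℕ) (κ : ℕ → Bool) : pun L P NX (n + 1) j M κ =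
    bif Nat.blt (dig P j) L then bif Nat.beq (dig NX (dig P j)) (dig P j) then
      bif tst M (dig P j) then false else pun L P NX n (j + 1) (M ||| 2 ^ (dig P j)) κ else false else false := by
  show force (dig P j) (fun c => cond (Nat.blt c L) (cond (Nat.beq (dig NX c) c) (cond (tst M c) false
    (pun L P NX n (Nat.succ j) (Nat.lor M (Nat.pow 2 c)) κ)) false) false) = _
  rw [force_eq]
  rfl

lemma bif_false' {c a : Bool} : (bif c then false else a) = true ↔ c = false ∧ a = true := by
  cases c <;> simp

theorem pun_spec {κ : ℕ → Bool} (n : ℕ) : ∀ (j M : ℕ), pun L P NX n j M κ = true →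
    ∃ M', κ M' = true ∧ ((List.range' j n).map (dig P)).Nodup ∧
      (∀ x ∈ (List.range' j n).map (dig P), x < L ∧ dig NX x = x ∧ M.testBit x = false) ∧
      ∀ x, M'.testBit x = true ↔ M.testBit x = true ∨ x ∈ (List.range' j n).map (dig P) := by
  induction n with
  | zero =>
    intro j M h
    exact ⟨M, h, by simp, by simp, by simp⟩
  | succ n ih =>
    intro j M h
    rw [pun_succ, bif_false, bif_false, bif_false', blt_true, beq_true, tst_eq] at h
    obtain ⟨h1, h2, h3, h4⟩ := h
    obtain ⟨M', h5, h6, h7, h8⟩ := ih (j + 1) _ h4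
    rw [List.range'_succ, List.map_cons]
    refine ⟨M', h5, ?_, ?_, ?_⟩
    · rw [List.nodup_cons]
      refine ⟨fun h9 => ?_, h6⟩
      have := (h7 _ h9).2.2
      rw [Nat.testBit_or, Nat.testBit_two_pow] at this
      simp at this
    · intro x hx
      rw [List.mem_cons] at hx
      rcases hx with rfl | hx
      · exact ⟨h1, h2, h3⟩
      · obtain ⟨h9, h10, h11⟩ := h7 x hx
        rw [Nat.testBit_or, Bool.or_eq_false_iff] at h11
        exact ⟨h9, h10, h11.1⟩
    · intro x
      rw [h8, Nat.testBit_or, Nat.testBit_two_pow, Bool.or_eq_true, decide_eq_true_eq, List.mem_cons]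
      constructor
      · rintro ((h | h) | h)
        · exact Or.inl h
        · exact Or.inr (Or.inl h.symm)
        · exact Or.inr (Or.inr h)
      · rintro (h | h | h)
        · exact Or.inl (Or.inl h)
        · exact Or.inl (Or.inr h.symm)
        · exact Or.inr h

lemma tri_succ (M n : ℕ) : tri NX M (n + 1) =
    bif Nat.beq (dig NX n) n then bif tst M n then tri NX M n else false
    else bif tst M n then false else bif Nat.beq (dig NX (dig NX (dig NX n))) n then tri NX M n else false := by
  show force (dig NX n) (fun c => cond (Nat.beq c n) (cond (tst M n) (tri NX M n) false)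
      (cond (tst M n) false (cond (Nat.beq (dig NX (dig NX c)) n) (tri NX M n) false))) = _
  rw [force_eq]

theorem tri_spec {M : ℕ} (n : ℕ) (h : tri NX M n = true) : ∀ t < n,
    (dig NX t = t ∧ M.testBit t = true) ∨
      (dig NX t ≠ t ∧ M.testBit t = false ∧ dig NX (dig NX (dig NX t)) = t) := by
  induction n with
  | zero => intro t ht; omega
  | succ n ih =>
    rw [tri_succ] at h
    cases hb : Nat.beq (dig NX n) n
    · rw [hb, cond_false, bif_false', bif_false, beq_true, tst_eq] at h
      obtain ⟨h1, h2, h3⟩ := h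
      have hb' : dig NX n ≠ n := fun h1 => by rw [beq_true.mpr h1] at hb; exact absurd hb (by simp)
      intro t ht
      rcases Nat.lt_or_ge t n with h4 | h4
      · exact ih h3 t h4
      · have : t = n := by omega
        subst this
        exact Or.inr ⟨hb', h1, h2⟩
    · rw [hb, cond_true, bif_false, tst_eq] at h
      obtain ⟨h1, h3⟩ := h
      intro t ht
      rcases Nat.lt_or_ge t n with h4 | h4
      · exact ih h3 t h4
      · have : t = n := by omega
        subst this
        exact Or.inl ⟨beq_true.mp hb, h1⟩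

/-! ### connectedness -/

variable {X WT full : ℕ}

lemma con_succ (n k R : ℕ) : con L F X WT full (n + 1) k R =
    bif Nat.blt (dig X k) L then bif tst R (dig WT (dig X k)) then
      con L F X WT full n (k + 1) (R ||| 2 ^ (dig WT (dig F (dig X k)))) else false else false := by
  show force (dig X k) (fun t =>
      cond (Nat.blt t L) (cond (tst R (dig WT t)) (force (Nat.lor R (Nat.pow 2 (dig WT (dig F t)))) fun R' =>
        con L F X WT full n (Nat.succ k) R') false) false) = _
  simp only [force_eq]
  rfl

theorem con_spec (hF : ∀ x < L, dig F x < L ∧ dig F (dig F x) = x) (hW : Tab L WT (window (dec L F))) {U : Set ℕ}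
    (hU : ∀ t < L, window (dec L F) t ∈ U → window (dec L F) ((dec L F).getD t 0) ∈ U) (n : ℕ) :
    ∀ k R, con L F X WT full n k R = true → (∀ i, R.testBit i = true → i ∈ U) → ∀ i, full.testBit i = true → i ∈ U := by
  induction n with
  | zero =>
    intro k R h hR
    have : R = full := beq_true.mp h
    rwa [← this]
  | succ n ih =>
    intro k R h hR
    rw [con_succ, bif_false, bif_false, blt_true, tst_eq] at h
    obtain ⟨h1, h2, h3⟩ := h
    refine ih _ _ h3 (fun i hi => ?_)
    rw [Nat.testBit_or, Bool.or_eq_true, Nat.testBit_two_pow, decide_eq_true_eq] at hi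
    rcases hi with hi | hi
    · exact hR i hi
    · rw [dig_eq WT, hW _, if_pos h1] at h2
      rw [dig_eq WT, hW _, if_pos (hF _ h1).1] at hi
      rw [← hi]
      have := hU _ h1 (hR _ h2)
      rwa [dec_getD h1] at this

/-! ### the check of a facet -/

/-- the sort key of a facet -/
def key (L s F : ℕ) : ℕ := ek F L * 32 ^ s + (F >>> (5 * L)) % 32 ^ s

/-- the items of a facet -/
abbrev oF (L F : ℕ) : List ℕ := dec L F

/-- the punctures of a facet -/
abbrev pF (L s F : ℕ) : List ℕ := dec s (F >>> (5 * L))

theorem valid_spec {g r s : ℕ} (hL : L < 32) (hLN : L = 2 * top g r s + r) (hr : 1 ≤ r) {κ : ℕ → Bool}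
    (h : valid L r s F κ = true) : IsMax g r s (oF L F) (pF L s F) ∧ κ (key L s F) = true := by
  unfold valid at h
  obtain ⟨hF, NX, WT, hN, hW, h⟩ := scan_spec0 hL h
  simp only [bif_false, beq_true] at h
  obtain ⟨hw, hl, h⟩ := h
  obtain ⟨M, h, hnd, hM, hM'⟩ := pun_spec s 0 0 h
  simp only [bif_false] at h
  obtain ⟨htri, hcon, hκ⟩ := h
  rw [← List.range_eq_range'] at hnd hM hM'
  have hN' : ∀ x < L, dig NX x = next (oF L F) x := fun x hx => by rw [dig_eq, hN, if_pos hx]
  have hnext : ∀ x < L, dig NX x < L := by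
    intro x hx
    obtain ⟨h1, h2⟩ := hF x hx
    rw [hN' x hx]
    by_cases h3 : dig F x = x
    · rw [next_of_eq (by rw [dec_getD hx]; exact h3)]
      exact lt_of_le_of_lt (start_le _ _) hx
    · rw [next_of_ne (by rw [dec_getD hx]; exact h3), dec_getD hx]
      have h4 : dig F x ≠ L - 1 := by
        intro h4
        have hl' : dig F (L - 1) = L - 1 := hl
        rw [h4, hl'] at h2
        rw [← h2] at h3
        exact h3 hl'
      omega
  have hLpos : 0 < L := by omega
  refine ⟨?_, hκ⟩
  constructor
  · rw [dec_length, hLN]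
  · intro t ht
    rw [dec_length] at ht ⊢
    obtain ⟨h1, h2⟩ := hF t ht
    rw [dec_getD ht, dec_getD h1]
    exact ⟨h1, h2⟩
  · rw [dec_length, dec_getD (by omega)]
    exact ⟨hw, hl⟩
  · refine ⟨dec_length _ _, hnd, fun t ht => ?_⟩
    obtain ⟨h1, h2, _⟩ := hM t ht
    rw [dec_length]
    exact ⟨h1, by rw [← hN' t h1]; exact h2⟩
  · intro t ht hp
    rw [dec_length] at ht
    rcases tri_spec L htri t ht with h1 | h1
    · exfalso
      have := (hM' t).mp h1.2
      rw [Nat.zero_testBit] at this
      rcases this with h2 | h2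
      · exact absurd h2 (by simp)
      · exact hp h2
    · have h2 := h1.2.2
      rw [hN' _ (hnext _ (hnext t ht)), hN' _ (hnext t ht), hN' t ht] at h2
      exact ⟨by rw [← hN' t ht]; exact h1.1, h2⟩
  · intro U h0 hU i hi
    rw [dec_length] at hU
    refine con_spec hF hW hU _ 0 1 hcon (fun i hi => ?_) i ?_
    · have : (1 : ℕ) = 2 ^ 0 := rfl
      rw [this, Nat.testBit_two_pow, decide_eq_true_eq] at hi
      rw [← hi]; exact h0
    · show (2 ^ r - 1).testBit i = true
      rw [Nat.testBit_two_pow_sub_one, decide_eq_true_eq]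
      exact hi

/-! ### disconnected families -/

lemma clo_spec {R : ℕ} (n : ℕ) (h : clo F WT R n = true) :
    ∀ t < n, R.testBit (dig WT t) = true → R.testBit (dig WT (dig F t)) = true := by
  induction n with
  | zero => intro t ht; omega
  | succ n ih =>
    have h1 : (bif tst R (dig WT n) then bif tst R (dig WT (dig F n)) then clo F WT R n else false
      else clo F WT R n) = true := h
    intro t ht hR
    rcases Nat.lt_or_ge t n with h4 | h4
    · refine ih ?_ t h4 hR
      cases hb : tst R (dig WT n)
      · rw [hb] at h1; exact h1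
      · rw [hb, cond_true, bif_false] at h1; exact h1.2
    · have : t = n := by omega
      subst this
      rw [tst_eq, hR, cond_true, bif_false, tst_eq] at h1
      exact h1.1

/-- the code of the items -/
def code0 (o : List ℕ) : ℕ := orf o.length (fun t => (o.getD t 0) <<< (5 * t))

/-- all digits one -/
def ones (L : ℕ) : ℕ := orf L (fun j => 1 <<< (5 * j))

lemma code1_eq {o : List ℕ} (h : ∀ t < o.length, o.getD t 0 < 31) : code1 o = code0 o + ones o.length := by
  have h1 := affine_orf 5 o.length 1 (by omega) (fun t => o.getD t 0) (fun j hj => by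
    have := h j hj
    show 1 + o.getD j 0 < 2 ^ 5
    have h32 : (2 : ℕ) ^ 5 = 32 := rfl
    omega)
  unfold code1 code0 ones
  rw [one_mul] at h1
  rw [add_comm, h1]
  refine orf_congr _ _ _ (fun j hj => ?_)
  rw [add_comm 1]

lemma dg_code0 {o : List ℕ} (h : ∀ t < o.length, o.getD t 0 < 32) (t : ℕ) : dg 5 (code0 o) t = o.getD t 0 := by
  unfold code0
  rw [dg_orf]
  have h1 : ∀ j < o.length, dg 5 ((o.getD j 0) <<< (5 * j)) t = if t = j then o.getD j 0 else 0 := by
    intro j hj
    have := dg_put 0 (o.getD j 0) j t (h j hj)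
    rw [Nat.zero_or, dg_zero, Nat.zero_or] at this
    exact this
  rw [orf_congr _ _ _ h1]
  by_cases ht : t < o.length
  · rw [orf_single _ _ t ht (fun j _ hj => if_neg (Ne.symm hj)), if_pos rfl]
  · rw [orf_zero_fun _ _ (fun j hj => if_neg (by omega)), List.getD_eq_default _ _ (by omega)]

lemma disc_spec {g r s one C : ℕ} (hL : L ≤ 24) (hLN : L = 2 * top g r s + r) (hone : one = ones L)
    (h : disc L r one C = true) {o p : List ℕ} (hm : IsMax g r s o p) : code1 o ≠ C := by
  intro hC
  have hlen : o.length = L := by rw [hm.length, hLN]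
  have hlt : ∀ t < o.length, o.getD t 0 < 31 := fun t ht => by have := (hm.invol t ht).1; omega
  have h1 : C - one = code0 o := by
    rw [← hC, code1_eq hlt, hone, hlen]; omega
  unfold disc at h
  have e1 : Nat.sub C one = C - one := rfl
  rw [force_eq, e1, h1] at h
  obtain ⟨hF, NX, WT, hN, hW, h⟩ := scan_spec0 (by omega) h
  have hdec : dec L (code0 o) = o := dec_eq hlen (fun t _ => dg_code0 (fun t ht => by have := hlt t ht; omega) t)
  rw [hdec] at hN hW
  rw [force_eq, bif_false, bif_false, tst_eq, blt_true] at h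
  obtain ⟨h2, h3, h4⟩ := h
  have h5 := hm.conn {i | (Nat.rec (motive := fun _ => ℕ → ℕ) (fun R => R) (fun _ ih R => force (pass (code0 o) WT L R) fun R' => ih R') r 1).testBit i = true} h3 (by
    intro t ht hw
    rw [hlen] at ht
    have h6 := clo_spec L h2 t ht
    have h7 : dig WT t = window o t := by rw [dig_eq, hW, if_pos ht]
    have h8 : dig (code0 o) t = o.getD t 0 := dg_code0 (fun t ht => by have := hlt t ht; omega) t
    have h9 : o.getD t 0 < L := by rw [← hlen]; exact (hm.invol t (by omega)).1
    have h10 : dig WT (o.getD t 0) = window o (o.getD t 0) := by rw [dig_eq, hW, if_pos h9]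
    rw [h8, h7, h10] at h6
    exact h6 hw)
  generalize (Nat.rec (motive := fun _ => ℕ → ℕ) (fun R => R) (fun _ ih R => force (pass (code0 o) WT L R) fun R' => ih R') r 1) = R at *
  have h6 : (2 ^ r - 1) &&& R = 2 ^ r - 1 := by
    apply Nat.eq_of_testBit_eq
    intro i
    rw [Nat.testBit_and, Nat.testBit_two_pow_sub_one]
    by_cases hi : i < r
    · have := h5 i hi
      rw [Set.mem_ofPred_eq] at this
      simp [hi, this]
    · simp [hi]
  have h7 : (2 ^ r - 1) &&& R ≤ R := Nat.and_le_right
  rw [h6] at h7
  have h8 : R < 2 ^ r - 1 := h4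
  omega

/-! ### the cover -/

/-- The facet `F` belongs to the code `C`. -/
def Mt (L C F : ℕ) : Prop := F % 2 ^ (5 * L) + ones L = C

/-- the conclusion for one code -/
def Cv (L r one : ℕ) (two : Bool) (Fs : List ℕ) (C : ℕ) : Prop :=
  disc L r one C = true ∨ (two = false ∧ ∃ F ∈ Fs, Mt L C F) ∨ (two = true ∧ ∃ F F2, [F, F2].Sublist Fs ∧ Mt L C F ∧ Mt L C F2)

lemma Cv.mono {r one : ℕ} {two : Bool} {Fs Fs' : List ℕ} {C : ℕ} (hs : Fs.Sublist Fs') (h : Cv L r one two Fs C) :
    Cv L r one two Fs' C := by
  rcases h with h | ⟨h, F, h1, h2⟩ | ⟨h, F, F2, h1, h2⟩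
  · exact Or.inl h
  · exact Or.inr (Or.inl ⟨h, F, hs.subset h1, h2⟩)
  · exact Or.inr (Or.inr ⟨h, F, F2, h1.trans hs, h2⟩)

theorem cover_spec {r one pL : ℕ} (hone : one = ones L) (hpL : pL = 2 ^ (5 * L)) {two : Bool} (l : List ℕ) :
    ∀ (Fs : List ℕ) (κ : List ℕ → Bool), cover L r one pL two l Fs κ = true →
      ∃ A B, Fs = A ++ B ∧ κ B = true ∧ ∀ C ∈ l, Cv L r one two A C := by
  induction l with
  | nil =>
    intro Fs κ h
    exact ⟨[], Fs, rfl, h, by simp⟩
  | cons C l ih =>
    intro Fs κ h
    rcases Fs with _ | ⟨F, Fs'⟩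
    · have h1 : (bif disc L r one C then cover L r one pL two l [] κ else false) = true := h
      rw [bif_false] at h1
      obtain ⟨A, B, h2, h3, h4⟩ := ih [] κ h1.2
      refine ⟨A, B, h2, h3, fun C' hC' => ?_⟩
      rcases List.mem_cons.mp hC' with rfl | hC'
      · exact Or.inl h1.1
      · exact h4 C' hC'
    · have h1 : (bif Nat.beq (Nat.add (Nat.mod F pL) one) C then
          bif two then (List.rec (motive := fun _ => Bool) false
            (fun F2 Fs'' _ => bif (Nat.beq (Nat.add (Nat.mod F2 pL) one) C) then (cover L r one pL two l Fs'' κ) else false) Fs')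
          else cover L r one pL two l Fs' κ
        else bif disc L r one C then cover L r one pL two l (F :: Fs') κ else false) = true := h
      have hMt : ∀ F, Nat.beq (Nat.add (Nat.mod F pL) one) C = true → Mt L C F := by
        intro F hF
        rw [beq_true] at hF
        unfold Mt
        rw [← hone, ← hpL]
        exact hF
      cases hb : Nat.beq (Nat.add (Nat.mod F pL) one) C
      · rw [hb, cond_false, bif_false] at h1
        obtain ⟨A, B, h2, h3, h4⟩ := ih _ κ h1.2
        refine ⟨A, B, h2, h3, fun C' hC' => ?_⟩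
        rcases List.mem_cons.mp hC' with rfl | hC'
        · exact Or.inl h1.1
        · exact h4 C' hC'
      · rw [hb, cond_true] at h1
        cases htwo : two
        · rw [htwo, cond_false] at h1
          rw [htwo] at ih
          obtain ⟨A, B, h2, h3, h4⟩ := ih _ κ h1
          refine ⟨F :: A, B, by rw [h2]; rfl, h3, fun C' hC' => ?_⟩
          rcases List.mem_cons.mp hC' with rfl | hC'
          · exact Or.inr (Or.inl ⟨rfl, F, List.mem_cons_self, hMt F hb⟩)
          · exact (h4 C' hC').mono (List.sublist_cons_self F A)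
        · rw [htwo, cond_true] at h1
          rw [htwo] at ih
          rcases Fs' with _ | ⟨F2, Fs''⟩
          · exact absurd h1 (by intro h; exact Bool.noConfusion h)
          · have h5 : (bif (Nat.beq (Nat.add (Nat.mod F2 pL) one) C) then (cover L r one pL true l Fs'' κ) else false) = true := h1
            rw [bif_false] at h5
            obtain ⟨A, B, h2, h3, h4⟩ := ih _ κ h5.2
            refine ⟨F :: F2 :: A, B, by rw [h2]; rfl, h3, fun C' hC' => ?_⟩
            rcases List.mem_cons.mp hC' with rfl | hC'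
            · refine Or.inr (Or.inr ⟨rfl, F, F2, ?_, hMt F hb, hMt F2 h5.1⟩)
              exact ((List.nil_sublist A).cons_cons F2).cons_cons F
            · exact (h4 C' hC').mono ((List.sublist_cons_self F2 A).trans (List.sublist_cons_self F (F2 :: A)))

/-- The facets found from the states in `X` are in the list `Fs`. -/
def Cov (L r one : ℕ) (two : Bool) (n : ℕ) (X : List (List ℕ)) (Fs : List ℕ) : Prop :=
  ∀ x ∈ X, ∀ C ∈ srchL r n x, Cv L r one two Fs C

theorem coverX_spec {r one pL : ℕ} (hone : one = ones L) (hpL : pL = 2 ^ (5 * L)) {two : Bool} {n : ℕ}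
    (X : List (List ℕ)) : ∀ (Fs : List ℕ), coverX L r one pL two n X Fs = true → Cov L r one two n X Fs := by
  induction X with
  | nil => intro Fs _ x hx; exact absurd hx (by simp)
  | cons y X ih =>
    intro Fs h
    obtain ⟨A, B, h1, h2, h3⟩ := cover_spec hone hpL (srchL r n y) Fs (coverX L r one pL two n X) h
    intro x hx C hC
    rw [h1]
    rcases List.mem_cons.mp hx with rfl | hx
    · exact (h3 C hC).mono (List.sublist_append_left A B)
    · exact (ih B h2 x hx C hC).mono (List.sublist_append_right A B)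

lemma Cov.append {r one : ℕ} {two : Bool} {n : ℕ} {X X' : List (List ℕ)} {Fs Fs' : List ℕ}
    (h : Cov L r one two n X Fs) (h' : Cov L r one two n X' Fs') : Cov L r one two n (X ++ X') (Fs ++ Fs') := by
  intro x hx C hC
  rcases List.mem_append.mp hx with hx | hx
  · exact (h x hx C hC).mono (List.sublist_append_left _ _)
  · exact (h' x hx C hC).mono (List.sublist_append_right _ _)

end Pool.Agent.H96.Arc
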