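/-!
# Kernel functions for the enumeration of maximal arc families

All functions are written with recursors and accelerated operations on natural numbers, for evaluation by the
kernel.  The digit `t` of `C` in base `32` is `o t + 1` if the item `t` and its other end `o t` have both been
placed and `0` otherwise.  This file does not import Mathlib.
-/

namespace Pool.Agent.H96.Arc.K

noncomputable section
universe u
variable {α : Type}

/-- digit in base 32 -/
def dig (C t : Nat) : Nat := Nat.mod (Nat.shiftRight C (Nat.mul 5 t)) 32

/-- bit -/
def tst (O t : Nat) : Bool := Nat.beq (Nat.mod (Nat.shiftRight O t) 2) 1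

/-- evaluate the argument first -/
@[reducible] def force {β : Type} (x : Nat) (f : Nat → β) : β :=
  Nat.rec (motive := fun _ => β) (f 0) (fun n _ => f (Nat.succ n)) x

/-- The type of search procedures; the arguments are: number `m` of items placed, start `S` of the current window,
number `z` of complete windows, number `a` of arcs still to be opened, number `q` of monogons still to come,
code `C`, bit mask `O` of the open items, ends `Z` of the complete windows, accumulator. -/
abbrev St (α : Type) := Nat → Nat → Nat → Nat → Nat → Nat → Nat → Nat → List α → List α

/-- the item `m` is the other end of the item `p` -/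
def close (ih : St α) (p m S z a q C O Z : Nat) (acc : List α) : List α :=
  force (Nat.lor C (Nat.lor (Nat.shiftLeft (Nat.succ p) (Nat.mul 5 m)) (Nat.shiftLeft (Nat.succ m) (Nat.mul 5 p)))) fun C' =>
  force (Nat.xor O (Nat.pow 2 p)) fun O' => ih (Nat.succ m) S z a q C' O' Z acc

/-- the item `m` is the first end of an arc -/
def fresh (ih : St α) (m S z a q C O Z : Nat) (acc : List α) : List α :=
  Nat.rec (motive := fun _ => List α) acc
    (fun a' _ => force (Nat.lor O (Nat.pow 2 m)) fun O' => ih (Nat.succ m) S z a' q C O' Z acc) a

/-- the item `m` is a boundary component -/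
def zero (r : Nat) (last : Bool) (ih : St α) (m S z a q C O Z : Nat) (acc : List α) : List α :=
  cond (cond last (Nat.beq O 0) (Nat.blt (Nat.succ z) r))
    (force (Nat.lor C (Nat.shiftLeft (Nat.succ m) (Nat.mul 5 m))) fun C' =>
      force (Nat.lor Z (Nat.shiftLeft (Nat.succ m) (Nat.mul 5 S))) fun Z' =>
      ih (Nat.succ m) (Nat.succ m) (Nat.succ z) a q C' O Z' acc) acc

/-- the item `m` is the other end of one of the items in the mask -/
def loop (ih : St α) (m S z a q C O Z : Nat) (fuel : Nat) : Nat → List α → List α :=
  Nat.rec (motive := fun _ => Nat → List α → List α) (fun _ acc => acc) (fun _ lp M acc =>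
    cond (Nat.beq M 0) acc
      (force (Nat.log2 M) fun p => lp (Nat.xor M (Nat.pow 2 p)) (close ih p m S z a q C O Z acc))) fuel

/-- the item `m` is the other end of the item `m - 1` -/
def mono (ih : St α) (m S z a q C O Z : Nat) (acc : List α) : List α :=
  Nat.rec (motive := fun _ => List α) acc (fun q' _ => close ih (Nat.pred m) m S z a q' C O Z acc) q

/-- the first item of a window -/
def atStart (ih : St α) (m S z a q C O Z : Nat) (acc : List α) : List α :=
  fresh ih m S z a q C O Z (loop ih m S z a q C O Z 24 (Nat.land O (Nat.shiftRight O 1)) acc)

/-- the item `m - 1` is open -/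
def noprev (r : Nat) (last : Bool) (ih : St α) (m S z a q C O Z : Nat) (acc : List α) : List α :=
  atStart ih m S z a q C O Z (mono ih m S z a q C O Z
    (cond (Nat.beq (Nat.succ S) m) acc (cond (tst O S) (zero r last ih m S z a q C O Z acc) acc)))

/-- the next corner must be `t` -/
def forced (r : Nat) (last : Bool) (ih : St α) (m S z a q C O Z : Nat) (acc : List α) (t : Nat) : List α :=
  cond (Nat.beq t S) (zero r last ih m S z a q C O Z acc)
    (Nat.rec (motive := fun _ => List α) acc
      (fun t' _ => cond (tst O t') (close ih t' m S z a q C O Z acc) acc) t)

/-- the corner before the corner `u`, plus one; zero if it is not known -/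
def prev (C Z S u : Nat) : Nat :=
  cond (Nat.beq u S) 0
    (Nat.rec (motive := fun _ => Nat) (dig C (Nat.pred u)) (fun d _ => Nat.succ d) (dig Z u))

/-- the item `m - 1` is the other end of `u` -/
def withPrev (r : Nat) (last : Bool) (ih : St α) (m S z a q C O Z : Nat) (acc : List α) (u : Nat) : List α :=
  Nat.rec (motive := fun _ => List α) (fresh ih m S z a q C O Z acc)
    (fun t _ => forced r last ih m S z a q C O Z acc t) (prev C Z S u)

/-- one step of the search -/
def step (r : Nat) (ih : St α) (last : Bool) : St α := fun m S z a q C O Z acc =>
  cond (Nat.beq m S) (atStart ih m S z a q C O Z acc)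
    (Nat.rec (motive := fun _ => List α) (noprev r last ih m S z a q C O Z acc)
      (fun u _ => withPrev r last ih m S z a q C O Z acc u) (dig C (Nat.pred m)))

/-- the search with `n` items to be placed -/
def srch (r : Nat) (base : St α) (n : Nat) : St α :=
  Nat.rec (motive := fun _ => St α) base (fun n ih => step r ih (Nat.beq n 0)) n

/-- the search for the first `k` of `k + n + 1` items -/
def srchF (r : Nat) (base : St α) (k : Nat) : St α :=
  Nat.rec (motive := fun _ => St α) base (fun _ ih => step r ih false) k

/-- complete families -/
def leaf : St Nat := fun _ _ _ _ q C _ _ acc => cond (Nat.beq q 0) (C :: acc) acc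

/-- states -/
def node : St (List Nat) := fun m S z a q C O Z acc => [m, S, z, a, q, C, O, Z] :: acc

/-- the search from a state -/
def srchL (r n : Nat) (x : List Nat) : List Nat :=
  match x with
  | [m, S, z, a, q, C, O, Z] => srch r leaf n m S z a q C O Z []
  | _ => []

/-- equality of lists of numbers -/
def eqL (l l' : List Nat) : Bool :=
  List.rec (motive := fun _ => List Nat → Bool)
    (fun l' => List.rec (motive := fun _ => Bool) true (fun _ _ _ => false) l')
    (fun x _ ih l' => List.rec (motive := fun _ => Bool) false (fun y t' _ => cond (Nat.beq x y) (ih t') false) l') l l'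

/-- equality of lists of lists of numbers -/
def eqLL (l l' : List (List Nat)) : Bool :=
  List.rec (motive := fun _ => List (List Nat) → Bool)
    (fun l' => List.rec (motive := fun _ => Bool) true (fun _ _ _ => false) l')
    (fun x _ ih l' => List.rec (motive := fun _ => Bool) false (fun y t' _ => cond (eqL x y) (ih t') false) l') l l'

end

end Pool.Agent.H96.Arc.K
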