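import Pool.Agent.H96.Arc.Names
import Pool.Agent.H34.PLE.Tools

/-!
# The arc complex is the gluing complex of a list of rows
-/

namespace Pool.Agent.H96.Arc

open Pool.Agent.H34.PLE K

variable {L F : ℕ}

lemma length_remove {o : List ℕ} {i j : ℕ} (hij : i < j) (hj : j < o.length) : (remove o i j).length + 2 = o.length := by
  unfold remove
  rw [List.length_map, List.length_eraseIdx, List.length_eraseIdx, if_pos hj, if_pos (by omega)]
  omega

lemma remove_lt {o : List ℕ} {i j : ℕ} (h : ∀ t < o.length, o.getD t 0 < 32) (t : ℕ) : (remove o i j).getD t 0 < 32 := by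
  unfold remove
  rw [getD_map (shift_zero i j), getD_eraseIdx, getD_eraseIdx]
  refine lt_of_le_of_lt (shift_le _ _ _) ?_
  by_cases h2 : (if (if t < i then t else t + 1) < j then (if t < i then t else t + 1)
      else (if t < i then t else t + 1) + 1) < o.length
  · exact h _ h2
  · rw [List.getD_eq_default _ _ (by omega)]; norm_num

/-- the name of a family after removing the arc with the ends `i < j` -/
def delA (o p : List ℕ) (i j : ℕ) : List ℕ × List (List ℕ) :=
  (remove o i j, p.map fun c => region (remove o i j) (shift i j c))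

lemma del_eq (o p : List ℕ) (a : ℕ) : del o p a = delA o p ((arcs o).getD a 0) (o.getD ((arcs o).getD a 0) 0) := rfl

lemma code0_dec (L F : ℕ) : F % 2 ^ (5 * L) = code0 (dec L F) := by
  apply eq_of_dg 5 (by omega)
  intro t
  rw [dg_mod, dg_code0]
  · split_ifs with h
    · rw [dec_getD h]; rfl
    · rw [List.getD_eq_default _ _ (by rw [dec_length]; omega)]
  · intro t ht
    rw [dec_length] at ht
    rw [dec_getD ht]
    exact dg_lt 5 F t

theorem nms_spec {T : Tr} {tw tb td s P : ℕ} (hL : L ≤ 24) {o : List ℕ} (hlen : o.length = L)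
    (ho : ∀ t < L, o.getD t 0 < L ∧ o.getD (o.getD t 0) 0 = t) (l : List ℕ) :
    (∀ i ∈ l, i < L ∧ i < o.getD i 0) → ∀ R, nms T tw tb td L s (code0 o) P (cum (code0 o) L 0 0) l R = true →
    ∀ a < l.length, dg 24 R a < 2 ^ (tw + td) ∧
      T.get tw tb td (dg 24 R a) = nc L (delA o (dec s P) (l.getD a 0) (o.getD (l.getD a 0) 0)) := by
  have hlt : ∀ t < o.length, o.getD t 0 < 32 := fun t ht => by have := (ho t (by omega)).1; omega
  induction l with
  | nil => intro _ R _ a ha; simp at ha
  | cons i l ih =>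
    intro hl R hR
    obtain ⟨hi, hij⟩ := hl i List.mem_cons_self
    have h0 : force (dig (code0 o) i) (fun j => force (nm (code0 o) (cum (code0 o) L 0 0) i j) fun X =>
      rgn L P X i j s 0 fun M => force (Nat.mod R (Nat.pow 2 24)) fun k =>
        bif Nat.blt k (Nat.pow 2 (Nat.add tw td)) then
          bif Nat.beq (T.get tw tb td k) (Nat.add X (Nat.shiftLeft M (Nat.mul 5 L))) then
            nms T tw tb td L s (code0 o) P (cum (code0 o) L 0 0) l (Nat.shiftRight R 24) else false else false) = true := hR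
    have hd : dig (code0 o) i = o.getD i 0 := dg_code0 hlt i
    rw [force_eq, force_eq, hd, nm_spec hL hlen ho hij (ho i hi).1] at h0
    have hrl := length_remove hij (by rw [hlen]; exact (ho i hi).1 : o.getD i 0 < o.length)
    have hrd : ∀ t, dig (code0 (remove o i (o.getD i 0))) t = (remove o i (o.getD i 0)).getD t 0 :=
      fun t => dg_code0 (fun t _ => remove_lt hlt t) t
    have h1 := rgn_spec hrd (by omega) s 0 h0
    rw [force_eq, bif_false, bif_false, blt_true, beq_true] at h1
    obtain ⟨h2, h3, h4⟩ := h1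
    have e0 : Nat.mod R (Nat.pow 2 24) = dg 24 R 0 := by rw [dg_def, mul_zero, Nat.shiftRight_zero]; rfl
    have e1 : ∀ k, dg 24 (Nat.shiftRight R 24) k = dg 24 R (k + 1) := by
      intro k
      have := dg_shr 24 R 1 k
      rw [mul_one] at this
      exact this
    rw [e0] at h2 h3
    have h5 := ih (fun i' hi' => hl i' (List.mem_cons_of_mem _ hi')) _ h4
    simp only [e1] at h5
    intro a ha
    rcases a with _ | a
    · refine ⟨h2, ?_⟩
      rw [h3]
      show code0 (remove o i (o.getD i 0)) + _ <<< (5 * L) = nc L (delA o (dec s P) i (o.getD i 0))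
      unfold nc delA mcode dec
      rw [List.map_map, List.map_map]
      rfl
    · exact h5 a (by simpa using ha)

/-- The facet `F` and its row of names `R` are correct. -/
def Ok1 (g r s L : ℕ) (T : Tr) (tw tb td : ℕ) (F R : ℕ) : Prop :=
  IsMax g r s (oF L F) (pF L s F) ∧ ∀ a < top g r s, dg 24 R a < 2 ^ (tw + td) ∧
    T.get tw tb td (dg 24 R a) = nc L (del (oF L F) (pF L s F) a)

/-- a correct list of facets with rows of names -/
structure Blk (g r s L : ℕ) (T : Tr) (tw tb td : ℕ) (Fs Rs : List ℕ) (lo hi : ℕ) : Prop where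
  ok : List.Forall₂ (Ok1 g r s L T tw tb td) Fs Rs
  inc : (Fs.map (key L s)).Pairwise (· < ·)
  lbd : ∀ F ∈ Fs, lo < key L s F
  ubd : ∀ F ∈ Fs, key L s F ≤ hi
  le : lo ≤ hi

lemma Blk.append {g r s : ℕ} {T : Tr} {tw tb td : ℕ} {Fs Rs Fs' Rs' : List ℕ} {lo mid hi : ℕ}
    (h : Blk g r s L T tw tb td Fs Rs lo mid) (h' : Blk g r s L T tw tb td Fs' Rs' mid hi) :
    Blk g r s L T tw tb td (Fs ++ Fs') (Rs ++ Rs') lo hi where
  ok := List.rel_append h.ok h'.ok
  inc := by
    rw [List.map_append, List.pairwise_append]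
    refine ⟨h.inc, h'.inc, fun a ha b hb => ?_⟩
    obtain ⟨F, hF, rfl⟩ := List.mem_map.mp ha
    obtain ⟨F', hF', rfl⟩ := List.mem_map.mp hb
    exact lt_of_le_of_lt (h.ubd F hF) (h'.lbd F' hF')
  lbd := by
    intro F hF
    rcases List.mem_append.mp hF with hF | hF
    · exact h.lbd F hF
    · exact lt_of_le_of_lt h.le (h'.lbd F hF)
  ubd := by
    intro F hF
    rcases List.mem_append.mp hF with hF | hF
    · exact le_trans (h.ubd F hF) h'.le
    · exact h'.ubd F hF
  le := le_trans h.le h'.le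

lemma oF_facts {g r s : ℕ} {o p : List ℕ} (hLN : L = 2 * top g r s + r) (h : IsMax g r s o p) :
    o.length = L ∧ ∀ t < L, o.getD t 0 < L ∧ o.getD (o.getD t 0) 0 = t := by
  have h1 : o.length = L := by rw [h.length, hLN]
  refine ⟨h1, ?_⟩
  rw [← h1]
  exact h.invol

theorem chk_spec {g r s pL : ℕ} {T : Tr} {tw tb td : ℕ} (hL : L ≤ 24) (hLN : L = 2 * top g r s + r) (hr : 1 ≤ r)
    (hpL : pL = 2 ^ (5 * L)) (Fs : List ℕ) : ∀ (Rs : List ℕ) (k : ℕ) (κ : ℕ → Bool),
    chk T tw tb td L r s pL Fs Rs k κ = true → ∃ hi, κ hi = true ∧ Blk g r s L T tw tb td Fs Rs k hi := by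
  induction Fs with
  | nil =>
    intro Rs k κ h
    rcases Rs with _ | ⟨R, Rs⟩
    · exact ⟨k, h, List.Forall₂.nil, by simp, by simp, by simp, le_refl _⟩
    · exact absurd h (by intro h; exact Bool.noConfusion h)
  | cons F Fs ih =>
    intro Rs k κ h
    rcases Rs with _ | ⟨R, Rs⟩
    · exact absurd h (by intro h; exact Bool.noConfusion h)
    · have h0 : valid L r s F (fun k' => bif Nat.blt k k' then
        (force (Nat.mod F pL) fun F0 => force (cum F0 L 0 0) fun W =>
          bif nms T tw tb td L s F0 (Nat.shiftRight F (Nat.mul 5 L)) W (opn F0 L []) R then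
            chk T tw tb td L r s pL Fs Rs k' κ else false) else false) = true := h
      obtain ⟨hmax, h1⟩ := valid_spec (by omega) hLN hr h0
      rw [bif_false, blt_true, force_eq, force_eq, bif_false] at h1
      obtain ⟨h2, h3, h4⟩ := h1
      obtain ⟨hi, h5, h6⟩ := ih Rs _ κ h4
      have e0 : Nat.mod F pL = code0 (oF L F) := by rw [hpL]; exact code0_dec L F
      obtain ⟨hlen, ho⟩ := oF_facts hLN hmax
      have hlt : ∀ t < (oF L F).length, (oF L F).getD t 0 < 32 := fun t ht => by
        have := (ho t (by omega)).1; omega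
      have hd : ∀ t, dig (code0 (oF L F)) t = (oF L F).getD t 0 := fun t => dg_code0 hlt t
      rw [e0, opn_eq hlen hd] at h3
      have hN : (arcs (oF L F)).length = top g r s := by rw [length_arcs]; exact hmax.card_open
      have h7 := nms_spec hL hlen ho (arcs (oF L F)) (by
        intro i hi
        unfold arcs at hi
        rw [List.mem_filter, List.mem_range, decide_eq_true_eq, hlen] at hi
        exact hi) R h3
      rw [hN] at h7
      refine ⟨hi, h5, List.Forall₂.cons ⟨hmax, fun a ha => h7 a ha⟩ h6.ok, ?_, ?_, ?_, ?_⟩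
      · rw [List.map_cons, List.pairwise_cons]
        refine ⟨fun b hb => ?_, h6.inc⟩
        obtain ⟨F', hF', rfl⟩ := List.mem_map.mp hb
        exact h6.lbd F' hF'
      · intro F' hF'
        rcases List.mem_cons.mp hF' with rfl | hF'
        · exact h2
        · exact lt_trans h2 (h6.lbd F' hF')
      · intro F' hF'
        rcases List.mem_cons.mp hF' with rfl | hF'
        · exact h6.le
        · exact h6.ubd F' hF'
      · exact le_trans h2.le h6.le

/-- The form in which a block is checked. -/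
theorem Blk.of_chk {g r s pL : ℕ} {T : Tr} {tw tb td lo hi : ℕ} {Fs Rs : List ℕ} (hL : L ≤ 24)
    (hLN : L = 2 * top g r s + r) (hr : 1 ≤ r) (hpL : pL = 2 ^ (5 * L))
    (h : chk T tw tb td L r s pL Fs Rs lo (fun k => Nat.ble k hi) = true) : Blk g r s L T tw tb td Fs Rs lo hi := by
  obtain ⟨hi', h1, h2⟩ := chk_spec hL hLN hr hpL Fs Rs lo _ h
  have h3 := ble_true.mp h1
  exact ⟨h2.ok, h2.inc, h2.lbd, fun F hF => le_trans (h2.ubd F hF) h3, le_trans h2.le h3⟩

/-! ### the main theorem -/

lemma wd_del {g r s : ℕ} {o p : List ℕ} (hL : L ≤ 24) (hLN : L = 2 * top g r s + r) (h : IsMax g r s o p) {a : ℕ}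
    (ha : a < top g r s) : Wd L s (del o p a) := by
  obtain ⟨hlen, ho⟩ := oF_facts hLN h
  have hN : (arcs o).length = top g r s := by rw [length_arcs]; exact h.card_open
  obtain ⟨h1, h2⟩ := arcs_getD (o := o) (a := a) (by omega)
  have h3 := (ho _ (by omega : (arcs o).getD a 0 < L)).1
  have h4 := length_remove h2 (by rw [hlen]; exact h3)
  rw [del_eq]
  refine ⟨by rw [← hlen]; exact h4, fun t _ => remove_lt (fun t ht => by have := (ho t (by omega)).1; omega) t, ?_, ?_⟩
  · show (p.map _).length = s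
    rw [List.length_map]; exact h.punct.1
  · intro x hx
    obtain ⟨c, hc, rfl⟩ := List.mem_map.mp hx
    refine ⟨fun t => decide (t ∈ regionAux (remove o ((arcs o).getD a 0) (o.getD ((arcs o).getD a 0) 0))
      (remove o ((arcs o).getD a 0) (o.getD ((arcs o).getD a 0) 0)).length (shift ((arcs o).getD a 0) (o.getD ((arcs o).getD a 0) 0) c)), ?_⟩
    unfold region
    have h5 : (remove o ((arcs o).getD a 0) (o.getD ((arcs o).getD a 0) 0)).length = L - 2 := by omega
    conv_lhs => rw [h5]
    rw [h5]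

lemma ek_congr {F F' : ℕ} (n : ℕ) (h : ∀ t < n, dig F t = dig F' t) : ek F n = ek F' n := by
  induction n with
  | zero => rfl
  | succ n ih => rw [ek, ek, ih (fun t ht => h t (by omega)), h n (by omega)]

lemma key_congr {F F' s : ℕ} (h1 : oF L F = oF L F') (h2 : pF L s F = pF L s F') : key L s F = key L s F' := by
  have h3 : ∀ t < L, dig F t = dig F' t := by
    intro t ht
    rw [← dec_getD ht, ← dec_getD ht]
    exact congrArg (fun l => l.getD t 0) h1
  have h4 : (F >>> (5 * L)) % 32 ^ s = (F' >>> (5 * L)) % 32 ^ s := by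
    have h32 : (32 : ℕ) ^ s = 2 ^ (5 * s) := by rw [pow_mul]; norm_num
    rw [h32, code0_dec, code0_dec]
    exact congrArg code0 h2
  unfold key
  rw [ek_congr L h3, h4]

lemma Mt.oF_eq {g r s C F : ℕ} {o p : List ℕ} (hL : L ≤ 24) (hLN : L = 2 * top g r s + r) (h : IsMax g r s o p)
    (hC : code1 o = C) (hM : Mt L C F) : oF L F = o := by
  obtain ⟨hlen, ho⟩ := oF_facts hLN h
  unfold Mt at hM
  rw [← hC, code1_eq (fun t ht => by have := (ho t (by omega)).1; omega), hlen] at hM
  have h1 : F % 2 ^ (5 * L) = code0 o := Nat.add_right_cancel hM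
  apply dec_eq hlen
  intro t ht
  have h2 := dg_mod 5 F L t
  rw [if_pos ht, h1, dg_code0 (fun t ht => by have := (ho t (by omega)).1; omega)] at h2
  exact h2.symm

/-- the list of punctures is determined up to order -/
lemma IsMax.mem_iff {g r s : ℕ} {o p p' : List ℕ} (h : IsMax g r s o p) (h' : IsMax g r s o p') (t : ℕ) :
    t ∈ p ↔ t ∈ p' := by
  constructor
  · intro ht
    obtain ⟨h1, h2⟩ := h.punct.2.2 t ht
    exact (h'.fix_iff h1).mp h2
  · intro ht
    obtain ⟨h1, h2⟩ := h'.punct.2.2 t ht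
    exact (h.fix_iff h1).mp h2

lemma IsMax.eq_of_le_one {g r s : ℕ} {o p p' : List ℕ} (hs : s ≤ 1) (h : IsMax g r s o p) (h' : IsMax g r s o p') :
    p = p' := by
  have h1 := h.punct.1
  have h2 := h'.punct.1
  have h3 := h.mem_iff h'
  rcases p with _ | ⟨a, _ | ⟨b, p⟩⟩
  · rcases p' with _ | ⟨a', p'⟩
    · rfl
    · exfalso; simp at h1 h2; omega
  · rcases p' with _ | ⟨a', _ | ⟨b', p'⟩⟩
    · exfalso; simp at h1 h2; omega
    · have := (h3 a).mp (by simp)
      simp at this
      rw [this]
    · exfalso; simp at h1 h2; omega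
  · exfalso; simp at h1; omega

lemma IsMax.eq_or {g r : ℕ} {o p p1 p2 : List ℕ} (h : IsMax g r 2 o p) (h1 : IsMax g r 2 o p1) (h2 : IsMax g r 2 o p2)
    (hne : p1 ≠ p2) : p = p1 ∨ p = p2 := by
  have e : ∀ q, IsMax g r 2 o q → ∃ a b, q = [a, b] ∧ a ≠ b := by
    intro q hq
    have h3 := hq.punct.1
    have h4 := hq.punct.2.1
    rcases q with _ | ⟨a, _ | ⟨b, _ | ⟨c, q⟩⟩⟩
    · simp at h3
    · simp at h3
    · refine ⟨a, b, rfl, ?_⟩
      simp at h4
      exact h4
    · simp at h3
  obtain ⟨a, b, rfl, hab⟩ := e p h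
  obtain ⟨a1, b1, rfl, hab1⟩ := e p1 h1
  obtain ⟨a2, b2, rfl, hab2⟩ := e p2 h2
  have m1 := h.mem_iff h1
  have m2 := h.mem_iff h2
  simp only [List.mem_cons, List.not_mem_nil, or_false] at m1 m2
  have c1 := (m1 a).mp (Or.inl rfl)
  have c2 := (m1 b).mp (Or.inr rfl)
  have c3 := (m2 a).mp (Or.inl rfl)
  have c4 := (m2 b).mp (Or.inr rfl)
  have hne' : ¬ (a1 = a2 ∧ b1 = b2) := fun h => hne (by rw [h.1, h.2])
  have : (a = a1 ∧ b = b1) ∨ (a = a2 ∧ b = b2) := by omega
  rcases this with h | h
  · left; rw [h.1, h.2]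
  · right; rw [h.1, h.2]

/-- **Main theorem**: the arc complex is the gluing complex of a list of rows of names, if the list of facets `Fs`
covers all results of the search and the list of rows `Rs` has been checked. -/
theorem main {g r s : ℕ} (hL : L ≤ 24) (hLN : L = 2 * top g r s + r) (hr : 2 ≤ r) (htop : 0 < top g r s) {two : Bool}
    (htwo : two = false ∧ s ≤ 1 ∨ two = true ∧ s = 2) {T : Tr} {tw tb td : ℕ} (hT : TInj T tw tb td) (k : ℕ)
    (hk : k < L) {X : List (List ℕ)} (hX : srchF r node k 0 0 0 (top g r s) s 0 0 0 [] = X) {one : ℕ}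
    (hone : one = ones L) {Fs Rs : List ℕ}
    (hcov : Cov L r one two (L - k) X Fs) {lo hi : ℕ} (hblk : Blk g r s L T tw tb td Fs Rs lo hi) :
    PLHomeo (arcComplex g r s) (glueL (top g r s - 1) 24 Rs) := by
  have hlenFR : Fs.length = Rs.length := hblk.ok.length_eq
  have hok : ∀ (i : ℕ) (h1 : i < Fs.length) (h2 : i < Rs.length), Ok1 g r s L T tw tb td Fs[i] Rs[i] := fun i h1 h2 =>
    hblk.ok.get (i := i) h1 h2
  have hmem : ∀ F ∈ Fs, IsMax g r s (oF L F) (pF L s F) := by
    intro F hF
    obtain ⟨i, hi, rfl⟩ := List.mem_iff_getElem.mp hF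
    exact (hok i hi (by omega)).1
  let f : Fin Rs.length → {x : List ℕ × List ℕ // IsMax g r s x.1 x.2} := fun i =>
    ⟨(oF L (Fs[i.1]'(by omega)), pF L s (Fs[i.1]'(by omega))), (hok i.1 (by omega) i.2).1⟩
  have hinj : Function.Injective f := by
    intro i j hij
    have h1 := congrArg (fun x => x.1.1) hij
    have h2 := congrArg (fun x => x.1.2) hij
    have h3 := key_congr (L := L) (s := s) h1 h2
    have h4 := hblk.inc
    rw [List.pairwise_map, List.pairwise_iff_getElem] at h4
    rcases lt_trichotomy i.1 j.1 with h5 | h5 | h5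
    · have := h4 i.1 j.1 (by omega) (by omega) h5
      omega
    · exact Fin.ext h5
    · have := h4 j.1 i.1 (by omega) (by omega) h5
      omega
  have hsurj : Function.Surjective f := by
    rintro ⟨⟨o, p⟩, hx⟩
    have hx' : IsMax g r s o p := hx
    have hadm := hx'.adm hr
    rw [← hLN] at hadm
    obtain ⟨x0, h1, h2⟩ := mem_front hadm hL k hk
    rw [hX] at h1
    have h3 := mem_srchL hadm hL (by omega : k + (L - k) = L) h2
    have hfin : ∀ F ∈ Fs, oF L F = o → pF L s F = p → ∃ i, f i = ⟨(o, p), hx⟩ := by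
      intro F hF h4 h5
      obtain ⟨i, hi, rfl⟩ := List.mem_iff_getElem.mp hF
      refine ⟨⟨i, by omega⟩, ?_⟩
      apply Subtype.ext
      show (oF L Fs[i], pF L s Fs[i]) = (o, p)
      rw [h4, h5]
    rcases hcov x0 h1 _ h3 with h4 | ⟨h4, F, h5, h6⟩ | ⟨h4, F, F2, h5, h6, h7⟩
    · exact absurd rfl (disc_spec hL hLN hone h4 hx')
    · have hs : s ≤ 1 := by
        rcases htwo with h | h
        · exact h.2
        · rw [h.1] at h4; exact absurd h4 (by simp)
      have h7 := h6.oF_eq hL hLN hx' rfl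
      have h8 := hmem F h5
      rw [h7] at h8
      exact hfin F h5 h7 (h8.eq_of_le_one hs hx')
    · have hs : s = 2 := by
        rcases htwo with h | h
        · rw [h.1] at h4; exact absurd h4 (by simp)
        · exact h.2
      subst hs
      have e1 := h6.oF_eq hL hLN hx' rfl
      have e2 := h7.oF_eq hL hLN hx' rfl
      have m1 : F ∈ Fs := h5.subset (by simp)
      have m2 : F2 ∈ Fs := h5.subset (by simp)
      have h8 := hmem F m1
      have h9 := hmem F2 m2
      have hne : pF L 2 F ≠ pF L 2 F2 := by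
        intro h10
        have h11 := key_congr (L := L) (e1.trans e2.symm) h10
        have h12 := hblk.inc.sublist (h5.map (key L 2))
        simp at h12
        omega
      rw [e1] at h8
      rw [e2] at h9
      rcases hx'.eq_or h8 h9 hne with h10 | h10
      · exact hfin F m1 e1 h10.symm
      · exact hfin F2 m2 e2 h10.symm
  refine PLHomeo.symm (PLHomeo.of_equiv (K := glueL (top g r s - 1) 24 Rs) (K' := arcComplex g r s)
    (Equiv.ofBijective f ⟨hinj, hsurj⟩) ?_)
  intro i j a b
  have ha : a.1 < top g r s := by have := a.2; omega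
  have hb : b.1 < top g r s := by have := b.2; omega
  obtain ⟨hi1, hi2⟩ := hok i.1 (by have := i.2; omega) i.2
  obtain ⟨hj1, hj2⟩ := hok j.1 (by have := j.2; omega) j.2
  obtain ⟨a1, a2⟩ := hi2 a.1 ha
  obtain ⟨b1, b2⟩ := hj2 b.1 hb
  show dg 24 (Rs.get i) a.1 = dg 24 (Rs.get j) b.1 ↔ Encodable.encode (del (f i).1.1 (f i).1.2 a.1) =
    Encodable.encode (del (f j).1.1 (f j).1.2 b.1)
  rw [Encodable.encode_injective.eq_iff]
  constructor
  · intro h
    have h1 : T.get tw tb td (dg 24 Rs[i.1] a.1) = T.get tw tb td (dg 24 Rs[j.1] b.1) := congrArg (T.get tw tb td) h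
    rw [a2, b2] at h1
    exact nc_inj (wd_del hL hLN hi1 ha) (wd_del hL hLN hj1 hb) h1
  · intro h
    have h1 : nc L (del (oF L (Fs[i.1]'(by have := i.2; omega))) (pF L s (Fs[i.1]'(by have := i.2; omega))) a.1) =
      nc L (del (oF L (Fs[j.1]'(by have := j.2; omega))) (pF L s (Fs[j.1]'(by have := j.2; omega))) b.1) := congrArg (nc L) h
    rw [← a2, ← b2] at h1
    exact hT _ a1 _ b1 h1

end Pool.Agent.H96.Arc
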