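import Pool.Agent.H96.Arc.Facets

/-!
# Soundness of the check of the names
-/

namespace Pool.Agent.H96.Arc

open Pool.Agent.H34.PLE K

/-! ### sums -/

lemma orf_eq_sum (N : ℕ) (f : ℕ → ℕ) (h : ∀ j < N, f j < 32) :
    orf N (fun j => f j <<< (5 * j)) = ∑ j ∈ Finset.range N, f j * 32 ^ j := by
  induction N with
  | zero => rfl
  | succ n ih =>
    rw [orf_succ, or_add _ _ _ (orf_shl_lt 5 n f (fun j hj => by have := h j (by omega); norm_num; exact this)),
      ih (fun j hj => h j (by omega)), Finset.sum_range_succ]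
    congr 2
    rw [pow_mul]; norm_num

lemma code0_eq_sum {o : List ℕ} (h : ∀ t < o.length, o.getD t 0 < 32) :
    code0 o = ∑ t ∈ Finset.range o.length, o.getD t 0 * 32 ^ t := orf_eq_sum _ _ h

lemma getD_map {f : ℕ → ℕ} (hf : f 0 = 0) (l : List ℕ) (t : ℕ) : (l.map f).getD t 0 = f (l.getD t 0) := by
  rw [List.getD_eq_getElem?_getD, List.getD_eq_getElem?_getD, List.getElem?_map]
  rcases l[t]? with _ | x
  · exact hf.symm
  · rfl

lemma getD_eraseIdx (l : List ℕ) (k t : ℕ) :
    (l.eraseIdx k).getD t 0 = l.getD (if t < k then t else t + 1) 0 := by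
  rw [List.getD_eq_getElem?_getD, List.getD_eq_getElem?_getD, List.getElem?_eraseIdx]
  split_ifs <;> rfl

/-! ### the table of the sums -/

lemma cum_succ (F k W S : ℕ) : cum F (k + 1) W S = cum F k ((W <<< 128) ||| S) (S + 32 ^ (dig F k)) := by
  show force (Nat.lor (Nat.shiftLeft W 128) S) (fun W' => force (Nat.add S (Nat.pow 32 (dig F k))) fun S' =>
      cum F k W' S') = _
  simp only [force_eq]
  rfl

variable {L F : ℕ}

/-- the sum of the powers for the items behind `k` -/
def Sg (L F k : ℕ) : ℕ := ∑ v ∈ Finset.Ico (k + 1) L, 32 ^ (dig F v)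

lemma sum_invol {s : Finset ℕ} (hF : ∀ x < L, dig F x < L ∧ dig F (dig F x) = x) (P : ℕ → Prop) [DecidablePred P]
    (hs : ∀ v, v ∈ s ↔ v < L ∧ P v) :
    ∑ v ∈ s, 32 ^ (dig F v) = ∑ t ∈ Finset.range L, (if P (dig F t) then 1 else 0) * 32 ^ t := by
  have h1 : ∑ t ∈ Finset.range L, (if P (dig F t) then 1 else 0) * 32 ^ t =
      ∑ t ∈ (Finset.range L).filter (fun t => P (dig F t)), 32 ^ t := by
    rw [Finset.sum_filter]
    refine Finset.sum_congr rfl (fun t _ => ?_)
    split_ifs <;> simp
  rw [h1]
  refine Finset.sum_bij (fun v _ => dig F v) ?_ ?_ ?_ ?_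
  · intro v hv
    rw [hs] at hv
    obtain ⟨h2, h3⟩ := hF v hv.1
    rw [Finset.mem_filter, Finset.mem_range]
    exact ⟨h2, by rw [h3]; exact hv.2⟩
  · intro v hv v' hv' he
    rw [hs] at hv hv'
    rw [← (hF v hv.1).2, ← (hF v' hv'.1).2, he]
  · intro t ht
    rw [Finset.mem_filter, Finset.mem_range] at ht
    obtain ⟨h2, h3⟩ := hF t ht.1
    exact ⟨dig F t, (hs _).mpr ⟨h2, ht.2⟩, h3⟩
  · intro v _; rfl

lemma Sg_eq (hF : ∀ x < L, dig F x < L ∧ dig F (dig F x) = x) (k : ℕ) :
    Sg L F k = ∑ t ∈ Finset.range L, (if k < dig F t then 1 else 0) * 32 ^ t :=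
  sum_invol hF (fun v => k < v) (fun v => by rw [Finset.mem_Ico]; omega)

lemma sum_lt_pow (n : ℕ) (f : ℕ → ℕ) (hf : ∀ t, f t ≤ 1) : ∑ t ∈ Finset.range n, f t * 32 ^ t < 32 ^ n := by
  induction n with
  | zero => simp
  | succ n ih =>
    rw [Finset.sum_range_succ, pow_succ]
    have := hf n
    have h1 : f n * 32 ^ n ≤ 1 * 32 ^ n := Nat.mul_le_mul_right _ this
    omega

lemma Sg_lt (hL : L ≤ 24) (hF : ∀ x < L, dig F x < L ∧ dig F (dig F x) = x) (k : ℕ) : Sg L F k < 2 ^ 128 := by
  rw [Sg_eq hF]
  calc _ < 32 ^ L := sum_lt_pow L (fun t => if k < dig F t then 1 else 0) (fun t => by split_ifs <;> omega)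
    _ ≤ 32 ^ 24 := Nat.pow_le_pow_right (by omega) hL
    _ ≤ 2 ^ 128 := by norm_num

lemma cum_spec (hL : L ≤ 24) (hF : ∀ x < L, dig F x < L ∧ dig F (dig F x) = x) (n : ℕ) : ∀ W S, n ≤ L →
    S = (∑ v ∈ Finset.Ico n L, 32 ^ (dig F v)) → ∀ x, dg 128 (cum F n W S) x = if x < n then Sg L F x else dg 128 W (x - n) := by
  induction n with
  | zero => intro W S _ _ x; rw [if_neg (by omega)]; rfl
  | succ n ih =>
    intro W S hn hS x
    have h1 : S + 32 ^ (dig F n) = ∑ v ∈ Finset.Ico n L, 32 ^ (dig F v) := by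
      rw [← Finset.insert_Ico_add_one_left_eq_Ico (by omega : n < L), Finset.sum_insert (by simp), hS, add_comm]
    have hSn : S = Sg L F n := hS
    rw [cum_succ, ih _ _ (by omega) h1]
    by_cases h2 : x < n
    · rw [if_pos h2, if_pos (by omega)]
    · rw [if_neg h2, dg_or]
      have h3 := dg_shl 128 W 1 (x - n)
      rw [mul_one] at h3
      rw [h3, hSn, dg_small 128 _ (Sg_lt hL hF n)]
      by_cases h4 : x = n
      · subst h4
        rw [if_neg (by omega), if_pos (by omega), if_pos (by omega), Nat.zero_or]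
      · rw [if_pos (by omega), if_neg (by omega), if_neg (by omega), Nat.or_zero]
        congr 1

/-! ### removing an arc -/

lemma shift_zero (i j : ℕ) : shift i j 0 = 0 := by unfold shift; simp

lemma shift_le (i j v : ℕ) : shift i j v ≤ v := by unfold shift; omega

lemma shift_add {i j : ℕ} (hij : i < j) (v : ℕ) :
    shift i j v + (if i < v then 1 else 0) + (if j < v then 1 else 0) = v := by
  unfold shift
  split_ifs <;> omega

lemma dg_del1 (X k t : ℕ) : dg 5 (del1 X k) t = dg 5 X (if t < k then t else t + 1) := by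
  have h32 : (32 : ℕ) ^ k = 2 ^ (5 * k) := by rw [pow_mul]; norm_num
  have h1 : del1 X k = (X % 2 ^ (5 * k)) ||| ((X >>> (5 * (k + 1))) <<< (5 * k)) := by
    rw [or_add _ _ _ (Nat.mod_lt _ (by positivity)), ← Nat.shiftLeft_eq, ← h32]
    rfl
  rw [h1, dg_or, dg_mod, dg_shl, dg_shr]
  by_cases h2 : t < k
  · rw [if_pos h2, if_pos h2, if_neg (by omega), Nat.or_zero]
  · rw [if_neg h2, if_neg h2, if_pos (by omega), Nat.zero_or]
    congr 1; omega

theorem nm_spec (hL : L ≤ 24) {o : List ℕ} (hlen : o.length = L) (ho : ∀ t < L, o.getD t 0 < L ∧ o.getD (o.getD t 0) 0 = t)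
    {i j : ℕ} (hij : i < j) (hj : j < L) :
    nm (code0 o) (cum (code0 o) L 0 0) i j = code0 (remove o i j) := by
  have hlt : ∀ t < o.length, o.getD t 0 < 32 := fun t ht => by have := (ho t (by omega)).1; omega
  have hdig : ∀ t, dig (code0 o) t = o.getD t 0 := fun t => dg_code0 hlt t
  have hF : ∀ x < L, dig (code0 o) x < L ∧ dig (code0 o) (dig (code0 o) x) = x := by
    intro x hx
    rw [hdig, hdig]
    exact ho x hx
  have hcum : ∀ k < L, (cum (code0 o) L 0 0 >>> (128 * k)) % 2 ^ 128 = Sg L (code0 o) k := by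
    intro k hk
    have := cum_spec hL hF L 0 0 (le_refl _) (by simp) k
    rw [if_pos hk] at this
    exact this
  have hmap : code0 (o.map (shift i j)) + Sg L (code0 o) i + Sg L (code0 o) j = code0 o := by
    rw [Sg_eq hF, Sg_eq hF]
    simp only [hdig]
    rw [code0_eq_sum hlt, code0_eq_sum, List.length_map, hlen, ← Finset.sum_add_distrib,
      ← Finset.sum_add_distrib]
    · refine Finset.sum_congr rfl (fun t _ => ?_)
      rw [getD_map (shift_zero i j), ← add_mul, ← add_mul, shift_add hij]
    · intro t ht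
      rw [getD_map (shift_zero i j)]
      rw [List.length_map] at ht
      have := shift_le i j (o.getD t 0)
      have := hlt t ht
      omega
  have h1 : nm (code0 o) (cum (code0 o) L 0 0) i j = del1 (del1 (code0 (o.map (shift i j))) j) i := by
    show del1 (del1 (code0 o - (cum (code0 o) L 0 0 >>> (128 * i)) % 2 ^ 128 - (cum (code0 o) L 0 0 >>> (128 * j)) % 2 ^ 128) j) i = _
    rw [hcum i (by omega), hcum j hj]
    congr 2
    omega
  rw [h1]
  apply eq_of_dg 5 (by omega)
  intro t
  rw [dg_del1, dg_del1, dg_code0, dg_code0]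
  · unfold remove
    rw [getD_map (shift_zero i j), getD_map (shift_zero i j), getD_eraseIdx, getD_eraseIdx]
  · intro t _
    unfold remove
    rw [getD_map (shift_zero i j), getD_eraseIdx, getD_eraseIdx]
    refine lt_of_le_of_lt (shift_le _ _ _) ?_
    by_cases h2 : (if (if t < i then t else t + 1) < j then (if t < i then t else t + 1)
        else (if t < i then t else t + 1) + 1) < o.length
    · exact hlt _ h2
    · rw [List.getD_eq_default _ _ (by omega)]; norm_num
  · intro t ht
    rw [getD_map (shift_zero i j)]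
    rw [List.length_map] at ht
    exact lt_of_le_of_lt (shift_le _ _ _) (hlt t ht)

/-! ### regions -/

/-- bit mask of a list -/
def bmask (l : List ℕ) : ℕ := l.foldr (fun t acc => 2 ^ t ||| acc) 0

lemma testBit_bmask (l : List ℕ) (x : ℕ) : (bmask l).testBit x = decide (x ∈ l) := by
  induction l with
  | nil => simp [bmask]
  | cons a l ih =>
    show (2 ^ a ||| bmask l).testBit x = _
    rw [Nat.testBit_or, Nat.testBit_two_pow, ih, Bool.eq_iff_iff]
    simp only [Bool.or_eq_true, decide_eq_true_eq, List.mem_cons]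
    constructor
    · rintro (h | h)
      · exact Or.inl h.symm
      · exact Or.inr h
    · rintro (h | h)
      · exact Or.inl h.symm
      · exact Or.inr h

/-- code of a list of masks -/
def mcode (L : ℕ) (l : List ℕ) : ℕ := l.foldr (fun x acc => (acc <<< L) ||| x) 0

lemma mcode_inj (L : ℕ) : ∀ l l' : List ℕ, l.length = l'.length → (∀ x ∈ l, x < 2 ^ L) → (∀ x ∈ l', x < 2 ^ L) →
    mcode L l = mcode L l' → l = l' := by
  intro l
  induction l with
  | nil =>
    intro l' h _ _ _
    exact (List.length_eq_zero_iff.mp h.symm).symm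
  | cons x l ih =>
    intro l' h h1 h2 h3
    rcases l' with _ | ⟨y, l'⟩
    · simp at h
    · have hx := h1 x List.mem_cons_self
      have hy := h2 y List.mem_cons_self
      have h4 : (mcode L l) <<< L ||| x = (mcode L l') <<< L ||| y := h3
      rw [← Nat.shiftLeft_add_eq_or_of_lt hx, ← Nat.shiftLeft_add_eq_or_of_lt hy, Nat.shiftLeft_eq, Nat.shiftLeft_eq] at h4
      have h5 : x = y := by
        have := congrArg (fun z => z % 2 ^ L) h4
        simp only [Nat.mul_add_mod_self_right, Nat.mod_eq_of_lt hx, Nat.mod_eq_of_lt hy] at this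
        exact this
      have h6 : mcode L l = mcode L l' := by
        rw [h5] at h4
        exact Nat.eq_of_mul_eq_mul_right (by positivity : 0 < 2 ^ L) (Nat.add_right_cancel h4)
      rw [h5, ih l' (by simpa using h) (fun z hz => h1 z (List.mem_cons_of_mem _ hz))
        (fun z hz => h2 z (List.mem_cons_of_mem _ hz)) h6]

/-- the code of a name -/
def nc (L : ℕ) (d : List ℕ × List (List ℕ)) : ℕ := code0 d.1 + (mcode L (d.2.map bmask)) <<< (5 * L)

/-- names of facets have this form -/
structure Wd (L s : ℕ) (d : List ℕ × List (List ℕ)) : Prop where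
  len : d.1.length + 2 = L
  lt : ∀ t < d.1.length, d.1.getD t 0 < 32
  len2 : d.2.length = s
  reg : ∀ x ∈ d.2, ∃ P : ℕ → Bool, x = (List.range (L - 2)).filter P

lemma bmask_lt {x : List ℕ} {n : ℕ} (h : ∀ t ∈ x, t < n) : bmask x < 2 ^ n := by
  apply Nat.lt_pow_two_of_testBit
  intro i hi
  rw [testBit_bmask, decide_eq_false_iff_not]
  intro h1
  have := h i h1
  omega

lemma code0_lt {o : List ℕ} {n : ℕ} (hn : o.length ≤ n) (h : ∀ t < o.length, o.getD t 0 < 32) : code0 o < 2 ^ (5 * n) := by
  apply lt_of_dg 5 (by omega)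
  intro k hk
  rw [dg_code0 h, List.getD_eq_default _ _ (by omega)]

lemma nc_inj {L s : ℕ} {d d' : List ℕ × List (List ℕ)} (h : Wd L s d) (h' : Wd L s d') (he : nc L d = nc L d') : d = d' := by
  have h1 : ∀ d : List ℕ × List (List ℕ), Wd L s d → code0 d.1 < 2 ^ (5 * L) := fun d hd =>
    code0_lt (by have := hd.len; omega) hd.lt
  unfold nc at he
  rw [Nat.shiftLeft_eq, Nat.shiftLeft_eq] at he
  have h2 : code0 d.1 = code0 d'.1 := by
    have := congrArg (fun z => z % 2 ^ (5 * L)) he
    simp only [Nat.add_mul_mod_self_right, Nat.mod_eq_of_lt (h1 d h), Nat.mod_eq_of_lt (h1 d' h')] at this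
    exact this
  have h3 : mcode L (d.2.map bmask) = mcode L (d'.2.map bmask) := by
    rw [h2] at he
    exact Nat.eq_of_mul_eq_mul_right (by positivity : 0 < 2 ^ (5 * L)) (Nat.add_left_cancel he)
  have hreg : ∀ d : List ℕ × List (List ℕ), Wd L s d → ∀ x ∈ d.2.map bmask, x < 2 ^ L := by
    intro d hd x hx
    obtain ⟨y, hy, rfl⟩ := List.mem_map.mp hx
    obtain ⟨P, rfl⟩ := hd.reg y hy
    apply bmask_lt
    intro t ht
    have := List.mem_range.mp (List.mem_filter.mp ht).1
    omega
  have h4 := mcode_inj L _ _ (by rw [List.length_map, List.length_map, h.len2, h'.len2]) (hreg d h) (hreg d' h') h3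
  apply Prod.ext
  · apply List.ext_getElem
    · have := h.len; have := h'.len; omega
    · intro t ht ht'
      have h5 := dg_code0 h.lt t
      have h6 := dg_code0 h'.lt t
      rw [h2, h6, List.getD_eq_getElem _ _ ht, List.getD_eq_getElem _ _ ht'] at h5
      exact h5.symm
  · apply List.ext_getElem
    · rw [h.len2, h'.len2]
    · intro t ht ht'
      have h5 : bmask d.2[t] = bmask d'.2[t] := by
        have h6 : (d.2.map bmask)[t]'(by rwa [List.length_map]) = (d'.2.map bmask)[t]'(by rwa [List.length_map]) := by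
          simp only [h4]
        simpa using h6
      obtain ⟨P, hP⟩ := h.reg _ (List.getElem_mem ht)
      obtain ⟨P', hP'⟩ := h'.reg _ (List.getElem_mem ht')
      have h7 : ∀ x, x ∈ d.2[t] ↔ x ∈ d'.2[t] := by
        intro x
        have h8 := testBit_bmask d.2[t] x
        rw [h5, testBit_bmask] at h8
        simpa using h8.symm
      rw [hP, hP'] at h7 ⊢
      apply List.filter_congr
      intro x hx
      have := h7 x
      rw [List.mem_filter, List.mem_filter] at this
      rw [Bool.eq_iff_iff]
      tauto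

lemma stt_eq {R : ℕ} {o : List ℕ} (h : ∀ t, dig R t = o.getD t 0) (c : ℕ) : stt R c = start o c := by
  induction c with
  | zero => rfl
  | succ c ih =>
    show (bif Nat.beq (dig R c) c then c + 1 else stt R c) = _
    rw [start_succ, ih, h]
    by_cases h1 : o.getD c 0 = c
    · rw [if_pos h1, beq_true.mpr h1, cond_true]
    · rw [if_neg h1, beq_false_of_ne h1, cond_false]

lemma nxt_eq {R : ℕ} {o : List ℕ} (h : ∀ t, dig R t = o.getD t 0) (c : ℕ) : nxt R c = next o c := by
  unfold nxt next
  rw [stt_eq h, h]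
  by_cases h1 : o.getD c 0 = c
  · rw [if_pos h1, beq_true.mpr h1, cond_true]
  · rw [if_neg h1, beq_false_of_ne h1, cond_false]

lemma mem_regionAux {o : List ℕ} {c c' : ℕ} (h1 : next o c = c') (h2 : next o c' = c) (n : ℕ) :
    (∀ t ∈ regionAux o n c, t = c ∨ t = c') ∧ (∀ t ∈ regionAux o n c', t = c ∨ t = c') := by
  induction n with
  | zero => simp [regionAux]
  | succ n ih =>
    constructor
    · intro t ht
      rw [regionAux, List.mem_cons, h1] at ht
      rcases ht with ht | ht
      · exact Or.inl ht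
      · exact ih.2 t ht
    · intro t ht
      rw [regionAux, List.mem_cons, h2] at ht
      rcases ht with ht | ht
      · exact Or.inr ht
      · exact ih.1 t ht

lemma bmask_region {o : List ℕ} {c c' : ℕ} (h1 : next o c = c') (h2 : next o c' = c) (hc : c < o.length)
    (hc' : c' < o.length) : bmask (region o c) = 2 ^ c ||| 2 ^ c' := by
  apply Nat.eq_of_testBit_eq
  intro x
  rw [testBit_bmask, Nat.testBit_or, Nat.testBit_two_pow, Nat.testBit_two_pow, Bool.eq_iff_iff]
  unfold region
  rw [decide_eq_true_eq, List.mem_filter, List.mem_range, decide_eq_true_eq, Bool.or_eq_true, decide_eq_true_eq,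
    decide_eq_true_eq]
  constructor
  · rintro ⟨_, h3⟩
    rcases (mem_regionAux h1 h2 _).1 x h3 with h4 | h4
    · exact Or.inl h4.symm
    · exact Or.inr h4.symm
  · have hn : ∃ n, o.length = n + 1 := ⟨o.length - 1, by omega⟩
    obtain ⟨n, hn⟩ := hn
    rintro (rfl | rfl)
    · refine ⟨hc, ?_⟩
      rw [hn, regionAux]
      exact List.mem_cons_self
    · refine ⟨hc', ?_⟩
      by_cases h3 : c = c'
      · rw [hn, regionAux, h3]
        exact List.mem_cons_self
      · have hn' : ∃ m, n = m + 1 := ⟨n - 1, by omega⟩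
        obtain ⟨m, rfl⟩ := hn'
        rw [hn, regionAux, h1, regionAux]
        exact List.mem_cons_of_mem _ List.mem_cons_self

lemma shf_eq (i j v : ℕ) : shf i j v = shift i j v := by
  unfold shf shift
  have h1 : ∀ a b : ℕ, (bif Nat.blt a b then 1 else 0) = (if a < b then 1 else 0) := by
    intro a b
    by_cases h : a < b
    · rw [if_pos h, blt_true.mpr h]; rfl
    · rw [if_neg h]
      cases hb : Nat.blt a b
      · rfl
      · exact absurd (blt_true.mp hb) h
  rw [h1, h1]
  rfl

lemma rgn_succ (P R i j n M : ℕ) (κ : ℕ → Bool) : rgn L P R i j (n + 1) M κ =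
    bif Nat.blt (shf i j (dig P n)) (L - 2) then bif Nat.blt (nxt R (shf i j (dig P n))) (L - 2) then
      bif Nat.beq (nxt R (nxt R (shf i j (dig P n)))) (shf i j (dig P n)) then
      rgn L P R i j n ((M <<< L) ||| (2 ^ (shf i j (dig P n)) ||| 2 ^ (nxt R (shf i j (dig P n))))) κ
      else false else false else false := by
  show force (shf i j (dig P n)) (fun c => force (nxt R c) fun c' =>
      cond (Nat.blt c (Nat.pred (Nat.pred L))) (cond (Nat.blt c' (Nat.pred (Nat.pred L))) (cond (Nat.beq (nxt R c') c)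
        (rgn L P R i j n (Nat.lor (Nat.shiftLeft M L) (Nat.lor (Nat.pow 2 c) (Nat.pow 2 c'))) κ) false) false) false) = _
  simp only [force_eq]
  rfl

theorem rgn_spec {P R i j : ℕ} {o' : List ℕ} (h : ∀ t, dig R t = o'.getD t 0) (hlen : o'.length = L - 2) {κ : ℕ → Bool}
    (n : ℕ) : ∀ M, rgn L P R i j n M κ = true →
    κ (((List.range n).map (fun k => bmask (region o' (shift i j (dig P k))))).foldr
      (fun x acc => (acc <<< L) ||| x) M) = true := by
  induction n with
  | zero => intro M hM; exact hM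
  | succ n ih =>
    intro M hM
    rw [rgn_succ, bif_false, bif_false, bif_false, blt_true, blt_true, beq_true, shf_eq, nxt_eq h, nxt_eq h] at hM
    obtain ⟨h1, h2, h3, h4⟩ := hM
    have h5 := ih _ h4
    rw [List.range_succ, List.map_append, List.foldr_append]
    have h6 : bmask (region o' (shift i j (dig P n))) = 2 ^ (shift i j (dig P n)) ||| 2 ^ (next o' (shift i j (dig P n))) :=
      bmask_region rfl h3 (by rw [hlen]; exact h1) (by rw [hlen]; exact h2)
    show κ (List.foldr _ ((M <<< L) ||| bmask (region o' (shift i j (dig P n)))) _) = true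
    rw [h6]
    exact h5

/-! ### the arcs -/

lemma opn_succ (F n : ℕ) (acc : List ℕ) : opn F (n + 1) acc =
    bif Nat.blt n (dig F n) then opn F n (n :: acc) else opn F n acc := rfl

lemma opn_spec (F n : ℕ) : ∀ acc, opn F n acc = (List.range n).filter (fun t => decide (t < dig F t)) ++ acc := by
  induction n with
  | zero => intro acc; rfl
  | succ n ih =>
    intro acc
    rw [opn_succ, List.range_succ, List.filter_append, ih, ih]
    by_cases h : n < dig F n
    · rw [blt_true.mpr h, cond_true]
      simp [h]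
    · have hb : Nat.blt n (dig F n) = false := by
        cases hb : Nat.blt n (dig F n)
        · rfl
        · exact absurd (blt_true.mp hb) h
      rw [hb, cond_false]
      simp [h]

lemma opn_eq {o : List ℕ} (hlen : o.length = L) (h : ∀ t, dig F t = o.getD t 0) : opn F L [] = arcs o := by
  rw [opn_spec, List.append_nil]
  unfold arcs
  rw [hlen]
  apply List.filter_congr
  intro t _
  rw [h]

lemma length_arcs (o : List ℕ) : (arcs o).length = ((Finset.range o.length).filter (fun t => t < o.getD t 0)).card := by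
  unfold arcs
  rw [← List.toFinset_card_of_nodup (List.nodup_range.filter _), List.toFinset_filter, List.toFinset_range]
  congr 1
  ext t
  simp

lemma arcs_getD {o : List ℕ} {a : ℕ} (h : a < (arcs o).length) :
    (arcs o).getD a 0 < o.length ∧ (arcs o).getD a 0 < o.getD ((arcs o).getD a 0) 0 := by
  have h1 : (arcs o).getD a 0 ∈ arcs o := by
    rw [List.getD_eq_getElem _ _ h]
    exact List.getElem_mem h
  unfold arcs at h1 ⊢
  rw [List.mem_filter, List.mem_range, decide_eq_true_eq] at h1
  exact h1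

/-! ### search trees -/

/-- The names in the tree are distinct. -/
def TInj (T : Tr) (tw tb td : ℕ) : Prop := ∀ k < 2 ^ (tw + td), ∀ k' < 2 ^ (tw + td),
  T.get tw tb td k = T.get tw tb td k' → k = k'

lemma incL_spec {b : ℕ} {κ : ℕ → Bool} (n : ℕ) : ∀ (x lo : ℕ), incL b n x lo κ = true →
    ∃ hi, κ hi = true ∧ lo ≤ hi ∧ (∀ k < n, lo < dg b x k ∧ dg b x k ≤ hi) ∧
      ∀ k k', k < k' → k' < n → dg b x k < dg b x k' := by
  induction n with
  | zero =>
    intro x lo h
    exact ⟨lo, h, le_refl _, fun k hk => by omega, fun k k' _ hk => by omega⟩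
  | succ n ih =>
    intro x lo h
    have h0 : force (Nat.mod x (Nat.pow 2 b)) (fun y => bif Nat.blt lo y then incL b n (Nat.shiftRight x b) y κ else false) = true := h
    rw [force_eq, bif_false, blt_true] at h0
    obtain ⟨h1, h2⟩ := h0
    obtain ⟨hi, h3, h4, h5, h6⟩ := ih _ _ h2
    have e0 : Nat.mod x (Nat.pow 2 b) = dg b x 0 := by rw [dg_def, mul_zero, Nat.shiftRight_zero]; rfl
    have e1 : ∀ k, dg b (Nat.shiftRight x b) k = dg b x (k + 1) := by
      intro k
      have := dg_shr b x 1 k
      rw [mul_one] at this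
      exact this
    rw [e0] at h1 h4 h5
    simp only [e1] at h5 h6
    refine ⟨hi, h3, by omega, ?_, ?_⟩
    · intro k hk
      rcases k with _ | k
      · exact ⟨h1, h4⟩
      · obtain ⟨h7, h8⟩ := h5 k (by omega)
        exact ⟨by omega, h8⟩
    · intro k k' hk hk'
      rcases k' with _ | k'
      · omega
      · rcases k with _ | k
        · exact (h5 k' (by omega)).1
        · exact h6 k k' (by omega) (by omega)

theorem inc_spec {w b : ℕ} (T : Tr) : ∀ (d lo : ℕ) (κ : ℕ → Bool), T.inc w b d lo κ = true →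
    ∃ hi, κ hi = true ∧ lo ≤ hi ∧ (∀ k, lo < T.get w b d k ∧ T.get w b d k ≤ hi) ∧
      ∀ k k', k % 2 ^ (w + d) < k' % 2 ^ (w + d) → T.get w b d k < T.get w b d k' := by
  induction T with
  | l x =>
    intro d lo κ h
    have h0 : (bif Nat.beq d 0 then incL b (Nat.pow 2 w) x lo κ else false) = true := h
    rw [bif_false, beq_true] at h0
    obtain ⟨rfl, h0⟩ := h0
    obtain ⟨hi, h1, h2, h3, h4⟩ := incL_spec _ _ _ h0
    have e : ∀ k, (Tr.l x).get w b 0 k = dg b x (k % 2 ^ w) := fun k => rfl
    have hw : ∀ k, k % 2 ^ w < Nat.pow 2 w := fun k => Nat.mod_lt _ (by positivity)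
    refine ⟨hi, h1, h2, fun k => by rw [e]; exact h3 _ (hw k), fun k k' hk => ?_⟩
    rw [e, e]
    exact h4 _ _ hk (hw k')
  | n t1 t2 ih1 ih2 =>
    intro d lo κ h
    rcases d with _ | d
    · exact absurd h (by intro h; exact Bool.noConfusion h)
    · have h0 : t1.inc w b d lo (fun mid => t2.inc w b d mid κ) = true := h
      obtain ⟨mid, h1, h2, h3, h4⟩ := ih1 _ _ _ h0
      obtain ⟨hi, h5, h6, h7, h8⟩ := ih2 _ _ _ h1
      have e : ∀ k, (Tr.n t1 t2).get w b (d + 1) k = bif tst k (w + d) then t2.get w b d k else t1.get w b d k :=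
        fun k => rfl
      have e2 : ∀ k, k % 2 ^ (w + (d + 1)) = k % 2 ^ (w + d) + (if tst k (w + d) = true then 2 ^ (w + d) else 0) := by
        intro k
        rw [← add_assoc, pow_succ, Nat.mod_mul, tst_eq, Nat.testBit_eq_decide_div_mod_eq]
        rcases Nat.mod_two_eq_zero_or_one (k / 2 ^ (w + d)) with h | h <;> simp [h]
      have hlt : ∀ k, k % 2 ^ (w + d) < 2 ^ (w + d) := fun k => Nat.mod_lt _ (by positivity)
      refine ⟨hi, h5, by omega, fun k => ?_, fun k k' hk => ?_⟩
      · rw [e]
        cases tst k (w + d)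
        · have := h3 k; rw [cond_false]; omega
        · have := h7 k; rw [cond_true]; omega
      · rw [e, e]
        rw [e2, e2] at hk
        have l1 := hlt k
        have l2 := hlt k'
        cases hb : tst k (w + d) <;> cases hb' : tst k' (w + d)
        · rw [hb, hb'] at hk
          rw [cond_false, cond_false]
          exact h4 k k' (by simpa using hk)
        · rw [cond_false, cond_true]
          have := h3 k
          have := h7 k'
          omega
        · rw [hb, hb'] at hk
          simp only [if_true, Bool.false_eq_true, if_false] at hk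
          omega
        · rw [hb, hb'] at hk
          rw [cond_true, cond_true]
          exact h8 k k' (by simpa using hk)

theorem tinj_of_inc {T : Tr} {tw tb td : ℕ} (h : T.inc tw tb td 0 (fun _ => true) = true) : TInj T tw tb td := by
  obtain ⟨hi, _, _, _, h4⟩ := inc_spec T td 0 _ h
  intro k hk k' hk' he
  rcases lt_trichotomy k k' with h5 | h5 | h5
  · have := h4 k k' (by rwa [Nat.mod_eq_of_lt hk, Nat.mod_eq_of_lt hk'])
    omega
  · exact h5
  · have := h4 k' k (by rwa [Nat.mod_eq_of_lt hk, Nat.mod_eq_of_lt hk'])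
    omega

end Pool.Agent.H96.Arc
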