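import Pool.Agent.H96.Arc.Struct
import Pool.Agent.H96.Arc.Kern
import Pool.Agent.H34.PLE.Dig

/-!
# The search finds all maximal arc families
-/

namespace Pool.Agent.H96.Arc

open Pool.Agent.H34.PLE K

/-! ### digits and bits -/

lemma dig_eq (C t : ℕ) : dig C t = dg 5 C t := rfl

lemma tst_eq (O t : ℕ) : tst O t = O.testBit t := by
  show Nat.beq ((O >>> t) % 2) 1 = _
  rw [Nat.testBit, Nat.one_and_eq_mod_two]
  rcases Nat.mod_two_eq_zero_or_one (O >>> t) with h | h <;> rw [h] <;> rfl

lemma dg_put (C x m k : ℕ) (hx : x < 32) : dg 5 (C ||| x <<< (5 * m)) k = dg 5 C k ||| (if k = m then x else 0) := by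
  rw [dg_or, dg_shl]
  congr 1
  by_cases h : m ≤ k
  · rw [if_pos h, dg_small 5 x (by simpa using hx)]
    by_cases h1 : k = m
    · rw [if_pos (by omega), if_pos h1]
    · rw [if_neg (by omega), if_neg h1]
  · rw [if_neg h, if_neg (by omega)]

lemma force_eq {β : Type} (x : ℕ) (f : ℕ → β) : force x f = f x := by cases x <;> rfl

/-! ### the state -/

/-- the item which closes the complete window with start `t`, plus one -/
def Zf (o : List ℕ) : ℕ → ℕ → ℕ
  | 0, _ => 0
  | m + 1, t => if o.getD m 0 = m ∧ start o m = t then m + 1 else Zf o m t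

lemma Zf_succ (o : List ℕ) (m t : ℕ) :
    Zf o (m + 1) t = if o.getD m 0 = m ∧ start o m = t then m + 1 else Zf o m t := rfl

lemma Zf_spec {o : List ℕ} {m t d : ℕ} (h : Zf o m t = d + 1) : d < m ∧ o.getD d 0 = d ∧ start o d = t := by
  induction m with
  | zero => exact absurd h (by simp [Zf])
  | succ m ih =>
    rw [Zf_succ] at h
    split_ifs at h with h1
    · have : m = d := by omega
      subst this
      exact ⟨by omega, h1.1, h1.2⟩
    · obtain ⟨h2, h3⟩ := ih h
      exact ⟨by omega, h3⟩

lemma Zf_ne_zero {o : List ℕ} {m t : ℕ} (h : t < start o m) (ht : start o t = t) : Zf o m t ≠ 0 := by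
  induction m with
  | zero => simp [start] at h
  | succ m ih =>
    rw [Zf_succ]
    split_ifs with h1
    · omega
    · rw [start_succ] at h
      split_ifs at h with h2
      · apply ih
        by_contra h3
        push Not at h3
        have h4 := start_eq_of_le h3 (by omega : t ≤ m)
        exact h1 ⟨h2, by omega⟩
      · exact ih h

lemma Zf_le {o : List ℕ} (m t : ℕ) : Zf o m t ≤ m := by
  induction m with
  | zero => exact le_refl _
  | succ m ih => rw [Zf_succ]; split_ifs <;> omega

lemma Zf_of_start {o : List ℕ} (m t : ℕ) (h : start o m ≤ t) : Zf o m t = 0 := by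
  rcases hz : Zf o m t with _ | d
  · rfl
  · exfalso
    obtain ⟨h1, h2, h3⟩ := Zf_spec hz
    have h4 := start_le o d
    have h5 : start o m ≤ d := by omega
    exact ne_of_start_le h5 h1 h2

/-- The meaning of the state of the search for the family `o`. -/
structure Inv (L : ℕ) (o : List ℕ) (m S z a q C O Z : ℕ) : Prop where
  hS : S = start o m
  hz : z = window o m
  ha : a = ((Finset.Ico m L).filter (fun t => t < o.getD t 0)).card
  hq : q = ((Finset.Ico m L).filter (fun t => next o t = t)).card
  hC : ∀ t, dg 5 C t = if t < m ∧ o.getD t 0 < m then o.getD t 0 + 1 else 0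
  hO : ∀ t, O.testBit t = decide (t < m ∧ m ≤ o.getD t 0)
  hZ : ∀ t, dg 5 Z t = Zf o m t

lemma card_Ico_succ (P : ℕ → Prop) [DecidablePred P] {m L : ℕ} (h : m < L) :
    ((Finset.Ico m L).filter P).card = (if P m then 1 else 0) + ((Finset.Ico (m + 1) L).filter P).card := by
  rw [← Finset.insert_Ico_add_one_left_eq_Ico h, Finset.filter_insert]
  split_ifs with h1
  · rw [Finset.card_insert_of_notMem (by simp), add_comm]
  · rw [zero_add]

variable {L r s N : ℕ} {o : List ℕ}

lemma Inv.init (h : Adm L r s N o) : Inv L o 0 0 0 N s 0 0 0 where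
  hS := rfl
  hz := rfl
  ha := by rw [← Finset.range_eq_Ico]; exact h.open_.symm
  hq := by rw [← Finset.range_eq_Ico]; exact h.fix.symm
  hC := by intro t; rw [dg_zero, if_neg (by omega)]
  hO := by intro t; rw [Nat.zero_testBit]; symm; rw [decide_eq_false_iff_not]; omega
  hZ := by intro t; rw [dg_zero]; rfl

lemma Inv.fresh {m S z a q C O Z : ℕ} (h : Adm L r s N o) (hI : Inv L o m S z a q C O Z) (hm : m < L)
    (h1 : m < o.getD m 0) : ∃ a', a = a' + 1 ∧ Inv L o (m + 1) S z a' q C (O ||| 2 ^ m) Z := by
  have h2 : o.getD m 0 ≠ m := by omega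
  have ha := hI.ha
  rw [card_Ico_succ _ hm, if_pos h1] at ha
  refine ⟨_, by rw [ha, add_comm], ?_⟩
  refine ⟨?_, ?_, rfl, ?_, ?_, ?_, ?_⟩
  · rw [start_succ, if_neg h2, hI.hS]
  · rw [window_succ, if_neg h2, hI.hz]
  · rw [hI.hq, card_Ico_succ _ hm, if_neg, zero_add]
    rw [next_of_ne h2]; omega
  · intro t
    rw [hI.hC]
    by_cases h3 : t < m ∧ o.getD t 0 < m
    · rw [if_pos h3, if_pos (by omega)]
    · rw [if_neg h3, if_neg]
      rintro ⟨h4, h5⟩
      have h6 : o.getD t 0 ≠ m := by
        intro h6
        have := (h.inv t (by omega)).2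
        rw [h6] at this
        omega
      have h7 : t ≠ m := by rintro rfl; omega
      omega
  · intro t
    rw [Nat.testBit_or, Nat.testBit_two_pow, hI.hO, Bool.eq_iff_iff]
    simp only [Bool.or_eq_true, decide_eq_true_eq]
    constructor
    · rintro (⟨h3, h4⟩ | h3)
      · refine ⟨by omega, ?_⟩
        have h6 : o.getD t 0 ≠ m := by
          intro h6
          have := (h.inv t (by omega)).2
          rw [h6] at this
          omega
        omega
      · subst h3; omega
    · rintro ⟨h3, h4⟩
      by_cases h5 : m = t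
      · exact Or.inr h5
      · exact Or.inl (by omega)
  · intro t
    rw [hI.hZ, Zf_succ, if_neg (by tauto)]

lemma Inv.close {m S z a q C O Z p : ℕ} (h : Adm L r s N o) (hL : L < 32) (hI : Inv L o m S z a q C O Z) (hm : m < L)
    (h1 : o.getD m 0 = p) (hp : p < m) (q' : ℕ) (hq : q = q' + if p + 1 = m then 1 else 0) :
    Inv L o (m + 1) S z a q' (C ||| ((p + 1) <<< (5 * m) ||| (m + 1) <<< (5 * p))) (O ^^^ 2 ^ p) Z := by
  have h2 : o.getD m 0 ≠ m := by omega
  have hop : o.getD p 0 = m := by rw [← h1]; exact (h.inv m hm).2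
  have key : ∀ t < L, o.getD t 0 = m ↔ t = p := by
    intro t ht
    constructor
    · intro h3
      have := (h.inv t ht).2
      rw [h3, h1] at this
      exact this.symm
    · rintro rfl; exact hop
  refine ⟨?_, ?_, ?_, ?_, ?_, ?_, ?_⟩
  · rw [start_succ, if_neg h2, hI.hS]
  · rw [window_succ, if_neg h2, hI.hz]
  · rw [hI.ha, card_Ico_succ _ hm, if_neg, zero_add]
    omega
  · have h3 := hI.hq
    rw [card_Ico_succ _ hm, next_of_ne h2, h1] at h3
    omega
  · intro t
    rw [← Nat.or_assoc, dg_put _ _ _ _ (by omega), dg_put _ _ _ _ (by omega), hI.hC]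
    by_cases h3 : t = m
    · subst h3
      rw [if_neg (by omega), if_pos rfl, if_neg (by omega), if_pos (by omega), h1]
      simp
    · by_cases h4 : t = p
      · subst h4
        rw [if_neg (by omega), if_neg (by omega), if_pos rfl, if_pos (by omega), hop]
        simp
      · rw [if_neg h3, if_neg h4, Nat.or_zero, Nat.or_zero]
        by_cases h5 : t < m ∧ o.getD t 0 < m
        · rw [if_pos h5, if_pos (by omega)]
        · rw [if_neg h5, if_neg]
          rintro ⟨h6, h7⟩
          have := key t (by omega)
          omega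
  · intro t
    rw [Nat.testBit_xor, Nat.testBit_two_pow, hI.hO, Bool.eq_iff_iff]
    simp only [bne_iff_ne, ne_eq, decide_eq_decide, decide_eq_true_eq]
    by_cases h4 : p = t
    · subst h4
      omega
    · have := fun ht => key t ht
      constructor
      · intro h5
        have h6 : t < m ∧ m ≤ o.getD t 0 := by
          by_contra h6
          exact h5 (by tauto)
        have := key t (by omega)
        omega
      · rintro ⟨h5, h6⟩ h7
        have h8 : t ≠ m := by rintro rfl; omega
        omega
  · intro t
    rw [hI.hZ, Zf_succ, if_neg (by tauto)]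

lemma Inv.zero {m S z a q C O Z : ℕ} (h : Adm L r s N o) (hL : L < 32) (hI : Inv L o m S z a q C O Z) (hm : m < L)
    (h1 : o.getD m 0 = m) :
    Inv L o (m + 1) (m + 1) (z + 1) a q (C ||| (m + 1) <<< (5 * m)) O (Z ||| (m + 1) <<< (5 * S)) := by
  have h0 : start o m ≠ m := fun h2 => h.ne m hm h2 h1
  refine ⟨?_, ?_, ?_, ?_, ?_, ?_, ?_⟩
  · rw [start_succ, if_pos h1]
  · rw [window_succ, if_pos h1, hI.hz]
  · rw [hI.ha, card_Ico_succ _ hm, if_neg, zero_add]
    omega
  · rw [hI.hq, card_Ico_succ _ hm, if_neg, zero_add]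
    rw [next_of_eq h1]; exact h0
  · intro t
    rw [dg_put _ _ _ _ (by omega), hI.hC]
    by_cases h3 : t = m
    · subst h3
      rw [if_neg (by omega), if_pos rfl, if_pos (by omega), h1]
      simp
    · rw [if_neg h3, Nat.or_zero]
      by_cases h5 : t < m ∧ o.getD t 0 < m
      · rw [if_pos h5, if_pos (by omega)]
      · rw [if_neg h5, if_neg]
        rintro ⟨h6, h7⟩
        have h8 : o.getD t 0 ≠ m := by
          intro h8
          have := (h.inv t (by omega)).2
          rw [h8, h1] at this
          omega
        omega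
  · intro t
    rw [hI.hO, decide_eq_decide]
    constructor
    · rintro ⟨h3, h4⟩
      have h8 : o.getD t 0 ≠ m := by
        intro h8
        have := (h.inv t (by omega)).2
        rw [h8, h1] at this
        omega
      omega
    · rintro ⟨h3, h4⟩
      have h8 : t ≠ m := by rintro rfl; omega
      omega
  · intro t
    rw [dg_put _ _ _ _ (by omega), hI.hZ, Zf_succ, hI.hS]
    by_cases h3 : start o m = t
    · subst h3
      rw [if_pos rfl, if_pos ⟨h1, rfl⟩, Zf_of_start m _ (le_refl _)]
      simp
    · rw [if_neg (by omega), if_neg (by tauto), Nat.or_zero]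

/-! ### hits -/

/-- the accumulator is kept -/
def Ext {α : Type} (f : List α → List α) : Prop := ∀ acc, ∀ y ∈ acc, y ∈ f acc

/-- a list with an element with the property `Q` is produced -/
def Hit {α : Type} (Q : α → Prop) (f : List α → List α) : Prop := ∀ acc, ∃ x ∈ f acc, Q x

def ExtS {α : Type} (ih : St α) : Prop := ∀ m S z a q C O Z, Ext (ih m S z a q C O Z)

def HitS {α : Type} (Q : α → Prop) (L : ℕ) (o : List ℕ) (m : ℕ) (ih : St α) : Prop :=
  ∀ S z a q C O Z, Inv L o m S z a q C O Z → Hit Q (ih m S z a q C O Z)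

section
variable {α : Type} {Q : α → Prop} {ih : St α}

lemma Ext.id : Ext (fun acc : List α => acc) := fun _ _ h => h

lemma Ext.comp {f g : List α → List α} (hf : Ext f) (hg : Ext g) : Ext (fun acc => f (g acc)) :=
  fun acc y hy => hf _ y (hg acc y hy)

lemma Hit.comp_left {f g : List α → List α} (hf : Hit Q f) : Hit Q (fun acc => f (g acc)) := fun acc => hf (g acc)

lemma Hit.comp_right {f g : List α → List α} (hf : Ext f) (hg : Hit Q g) : Hit Q (fun acc => f (g acc)) := by
  intro acc
  obtain ⟨x, h1, h2⟩ := hg acc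
  exact ⟨x, hf _ x h1, h2⟩

lemma ext_close (h : ExtS ih) (p m S z a q C O Z : ℕ) : Ext (close ih p m S z a q C O Z) := by
  intro acc y hy
  unfold close
  rw [force_eq, force_eq]
  exact h _ _ _ _ _ _ _ _ _ y hy

lemma fresh_succ (m S z a q C O Z : ℕ) (acc : List α) :
    fresh ih m S z (a + 1) q C O Z acc = ih (m + 1) S z a q C (O ||| 2 ^ m) Z acc :=
  force_eq (O ||| 2 ^ m) (fun O' => ih (m + 1) S z a q C O' Z acc)

lemma ext_fresh (h : ExtS ih) (m S z a q C O Z : ℕ) : Ext (fresh ih m S z a q C O Z) := by
  intro acc y hy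
  rcases a with _ | a
  · exact hy
  · rw [fresh_succ]
    exact h _ _ _ _ _ _ _ _ _ y hy

lemma ext_zero (h : ExtS ih) (last : Bool) (m S z a q C O Z : ℕ) : Ext (zero r last ih m S z a q C O Z) := by
  intro acc y hy
  unfold K.zero
  rw [force_eq, force_eq]
  cases (bif last then O.beq 0 else z.succ.blt r)
  · exact hy
  · exact h _ _ _ _ _ _ _ _ _ y hy

lemma loop_succ (m S z a q C O Z fuel M : ℕ) (acc : List α) : loop ih m S z a q C O Z (fuel + 1) M acc =
    bif Nat.beq M 0 then acc else
      loop ih m S z a q C O Z fuel (M ^^^ 2 ^ (Nat.log2 M)) (close ih (Nat.log2 M) m S z a q C O Z acc) := by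
  show (bif Nat.beq M 0 then acc else force (Nat.log2 M) _) = _
  rw [force_eq]
  rfl

lemma ext_loop (h : ExtS ih) (m S z a q C O Z fuel : ℕ) : ∀ M, Ext (loop ih m S z a q C O Z fuel M) := by
  induction fuel with
  | zero => intro M acc y hy; exact hy
  | succ n ihn =>
    intro M acc y hy
    rw [loop_succ]
    cases Nat.beq M 0
    · exact ihn _ _ y (ext_close h _ _ _ _ _ _ _ _ _ acc y hy)
    · exact hy

lemma ext_mono (h : ExtS ih) (m S z a q C O Z : ℕ) : Ext (mono ih m S z a q C O Z) := by
  intro acc y hy
  rcases q with _ | q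
  · exact hy
  · exact ext_close h _ _ _ _ _ _ _ _ _ acc y hy

lemma ext_atStart (h : ExtS ih) (m S z a q C O Z : ℕ) : Ext (atStart ih m S z a q C O Z) :=
  fun acc y hy => ext_fresh h _ _ _ _ _ _ _ _ _ y (ext_loop h _ _ _ _ _ _ _ _ _ _ acc y hy)

lemma ext_noprev (h : ExtS ih) (last : Bool) (m S z a q C O Z : ℕ) : Ext (noprev r last ih m S z a q C O Z) := by
  intro acc y hy
  refine ext_atStart h _ _ _ _ _ _ _ _ _ y (ext_mono h _ _ _ _ _ _ _ _ _ y ?_)
  cases Nat.beq (Nat.succ S) m
  · cases tst O S
    · exact hy
    · exact ext_zero h _ _ _ _ _ _ _ _ _ acc y hy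
  · exact hy

lemma ext_forced (h : ExtS ih) (last : Bool) (m S z a q C O Z t : ℕ) :
    Ext (fun acc => forced r last ih m S z a q C O Z acc t) := by
  intro acc y hy
  show y ∈ forced r last ih m S z a q C O Z acc t
  unfold forced
  cases Nat.beq t S
  · rcases t with _ | t
    · exact hy
    · show y ∈ (bif tst O t then _ else _)
      cases tst O t
      · exact hy
      · exact ext_close h _ _ _ _ _ _ _ _ _ acc y hy
  · exact ext_zero h _ _ _ _ _ _ _ _ _ acc y hy

lemma ext_withPrev (h : ExtS ih) (last : Bool) (m S z a q C O Z u : ℕ) :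
    Ext (fun acc => withPrev r last ih m S z a q C O Z acc u) := by
  intro acc y hy
  show y ∈ withPrev r last ih m S z a q C O Z acc u
  unfold withPrev
  rcases prev C Z S u with _ | t
  · exact ext_fresh h _ _ _ _ _ _ _ _ acc y hy
  · exact ext_forced h _ _ _ _ _ _ _ _ _ _ acc y hy

lemma ext_step (h : ExtS ih) (last : Bool) : ExtS (step r ih last) := by
  intro m S z a q C O Z acc y hy
  unfold step
  cases Nat.beq m S
  · show y ∈ (Nat.rec (motive := fun _ => List α) (noprev r last ih m S z a q C O Z acc)
      (fun u _ => withPrev r last ih m S z a q C O Z acc u) (dig C (Nat.pred m)))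
    rcases dig C (Nat.pred m) with _ | u
    · exact ext_noprev h _ _ _ _ _ _ _ _ _ acc y hy
    · exact ext_withPrev h _ _ _ _ _ _ _ _ _ _ acc y hy
  · exact ext_atStart h _ _ _ _ _ _ _ _ acc y hy

lemma ext_srch {base : St α} (h : ExtS base) (n : ℕ) : ExtS (srch r base n) := by
  induction n with
  | zero => exact h
  | succ n ihn => exact ext_step ihn _

lemma ext_srchF {base : St α} (h : ExtS base) (n : ℕ) : ExtS (srchF r base n) := by
  induction n with
  | zero => exact h
  | succ n ihn => exact ext_step ihn _

/-! ### hits of the parts -/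

variable {m S z a q C O Z : ℕ}

lemma hit_fresh (h : Adm L r s N o) (hih : HitS Q L o (m + 1) ih) (hI : Inv L o m S z a q C O Z) (hm : m < L)
    (h1 : m < o.getD m 0) : Hit Q (fresh ih m S z a q C O Z) := by
  obtain ⟨a', rfl, h2⟩ := Inv.fresh h hI hm h1
  intro acc
  rw [fresh_succ]
  exact hih _ _ _ _ _ _ _ h2 acc

lemma hit_close (h : Adm L r s N o) (hL : L < 32) (hih : HitS Q L o (m + 1) ih) (hI : Inv L o m S z a q C O Z)
    (hm : m < L) {p : ℕ} (h1 : o.getD m 0 = p) (hp : p < m) (q' : ℕ) (hq : q = q' + if p + 1 = m then 1 else 0) :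
    Hit Q (close ih p m S z a q' C O Z) := by
  intro acc
  unfold close
  rw [force_eq, force_eq]
  exact hih _ _ _ _ _ _ _ (Inv.close h hL hI hm h1 hp q' hq) acc

lemma hit_zero (h : Adm L r s N o) (hL : L < 32) (hih : HitS Q L o (m + 1) ih) (hI : Inv L o m S z a q C O Z)
    (hm : m < L) (h1 : o.getD m 0 = m) {last : Bool} (hlast : last = true ↔ m + 1 = L) :
    Hit Q (zero r last ih m S z a q C O Z) := by
  intro acc
  unfold K.zero
  rw [force_eq, force_eq]
  have h2 : (bif last then O.beq 0 else z.succ.blt r) = true := by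
    cases hl : last
    · show z.succ.blt r = true
      have h3 : m + 1 ≠ L := fun h3 => by rw [hlast.mpr h3] at hl; exact absurd hl (by simp)
      apply Nat.ble_eq_true_of_le
      have h4 : window o (m + 1) = z + 1 := by rw [window_succ, if_pos h1, hI.hz]
      have h5 : window o (m + 1) ≤ window o (L - 1) := window_mono o (by omega)
      have h6 : window o L = window o (L - 1) + 1 := by
        have : L = (L - 1) + 1 := by have := h.pos; omega
        conv_lhs => rw [this]
        rw [window_succ, if_pos h.last]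
      have h7 := h.win
      show z + 1 + 1 ≤ r
      omega
    · show O.beq 0 = true
      have h3 := hlast.mp hl
      have : O = 0 := by
        apply Nat.eq_of_testBit_eq
        intro i
        rw [hI.hO, Nat.zero_testBit, decide_eq_false_iff_not]
        rintro ⟨h4, h5⟩
        obtain ⟨h6, h7⟩ := h.inv i (by omega)
        have h8 : o.getD i 0 = m := by omega
        rw [h8, h1] at h7
        omega
      rw [this]; rfl
  rw [h2]
  exact hih _ _ _ _ _ _ _ (Inv.zero h hL hI hm h1) acc

lemma hit_loop (hex : ExtS ih) (p : ℕ) (hc : Hit Q (close ih p m S z a q C O Z)) (fuel : ℕ) :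
    ∀ M, M.testBit p = true → M < 2 ^ fuel → Hit Q (loop ih m S z a q C O Z fuel M) := by
  induction fuel with
  | zero =>
    intro M h1 h2
    have : M = 0 := by simpa using h2
    rw [this, Nat.zero_testBit] at h1
    exact absurd h1 (by simp)
  | succ n ihn =>
    intro M h1 h2 acc
    rw [loop_succ]
    have h3 : M ≠ 0 := by
      rintro rfl
      rw [Nat.zero_testBit] at h1
      exact absurd h1 (by simp)
    have h4 : Nat.beq M 0 = false := by
      rcases M with _ | M
      · exact absurd rfl h3
      · rfl
    rw [h4]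
    show ∃ x ∈ loop ih m S z a q C O Z n _ _, Q x
    by_cases h5 : Nat.log2 M = p
    · obtain ⟨x, h6, h7⟩ := hc acc
      rw [h5]
      exact ⟨x, ext_loop hex _ _ _ _ _ _ _ _ _ _ _ x h6, h7⟩
    · refine ihn _ ?_ ?_ _
      · rw [Nat.testBit_xor, Nat.testBit_two_pow, h1]
        simp [h5]
      · have h6 : M.testBit (Nat.log2 M) = true := Nat.testBit_log2 h3
        apply Nat.lt_pow_two_of_testBit
        intro i hi
        rw [Nat.testBit_xor, Nat.testBit_two_pow]
        rcases Nat.lt_or_ge (Nat.log2 M) i with h7 | h7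
        · have h8 : M.testBit i = false := by
            apply Nat.testBit_lt_two_pow
            exact lt_of_lt_of_le Nat.lt_log2_self (Nat.pow_le_pow_right (by omega) h7)
          rw [h8]
          simp; omega
        · have h8 : Nat.log2 M ≤ n := by
            rw [← Nat.lt_succ_iff]
            exact (Nat.log2_lt h3).mpr h2
          have h9 : Nat.log2 M = i := by omega
          rw [← h9, h6]
          simp


lemma next_lt (h : Adm L r s N o) {t : ℕ} (ht : t < L) : next o t < L := by
  by_cases h1 : o.getD t 0 = t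
  · rw [next_of_eq h1]
    exact lt_of_le_of_lt (start_le o t) ht
  · rw [next_of_ne h1]
    obtain ⟨h2, h3⟩ := h.inv t ht
    have h4 : o.getD t 0 ≠ L - 1 := by
      intro h4
      rw [h4, h.last] at h3
      omega
    omega

lemma next_inj (h : Adm L r s N o) {t t' : ℕ} (ht : t < L) (ht' : t' < L) (he : next o t = next o t') : t = t' := by
  rw [← h.cube t ht, ← h.cube t' ht', he]

/-- the corner behind the item `x` follows the other end of `x` -/
lemma next_partner (h : Adm L r s N o) {x : ℕ} (hx : x < L) (h1 : o.getD x 0 ≠ x) : next o (o.getD x 0) = x + 1 := by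
  have h2 := (h.inv x hx).2
  rw [next_of_ne (by rw [h2]; exact fun h3 => h1 h3.symm), h2]

lemma no_pred (h : Adm L r s N o) (hm : m < L) (hc : start o m = m ∨ m ≤ o.getD (m - 1) 0) {x : ℕ} (hx : x < m) :
    next o x ≠ m := by
  intro h1
  by_cases h2 : o.getD x 0 = x
  · rw [next_of_eq h2] at h1
    have := start_le o x
    omega
  · rw [next_of_ne h2] at h1
    have h3 : o.getD x 0 = m - 1 := by omega
    have h4 := (h.inv x (by omega)).2
    rw [h3] at h4
    rcases hc with hc | hc
    · rcases start_cases o m with h5 | ⟨k, h5, h6⟩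
      · omega
      · have h7 : k = m - 1 := by omega
        rw [h7] at h6
        omega
    · omega

lemma open_next (h : Adm L r s N o) (hm : m < L) (hc : start o m = m ∨ m ≤ o.getD (m - 1) 0) {p : ℕ}
    (h1 : o.getD m 0 = p) (hp : p < m) (hpm : p + 1 ≠ m) : m ≤ o.getD (p + 1) 0 := by
  have h2 : next o m = p + 1 := by rw [next_of_ne (by omega), h1]
  have h3 := h.cube m hm
  rw [h2] at h3
  by_contra h4
  push Not at h4
  have h5 : next o (p + 1) ≤ m := by
    by_cases h6 : o.getD (p + 1) 0 = p + 1
    · rw [next_of_eq h6]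
      have := start_le o (p + 1)
      omega
    · rw [next_of_ne h6]
      omega
  rcases Nat.lt_or_ge (next o (p + 1)) m with h6 | h6
  · exact no_pred h hm hc h6 h3
  · have h7 : next o (p + 1) = m := le_antisymm h5 h6
    rw [h7, h2] at h3
    omega

lemma beq_false_of_ne {x y : ℕ} (h : x ≠ y) : Nat.beq x y = false := by
  rcases hb : Nat.beq x y with _ | _
  · rfl
  · exact absurd (Nat.eq_of_beq_eq_true hb) h

lemma hit_closings (h : Adm L r s N o) (hL : L ≤ 24) (hih : HitS Q L o (m + 1) ih) (hex : ExtS ih)
    (hI : Inv L o m S z a q C O Z) (hm : m < L) (hc : start o m = m ∨ m ≤ o.getD (m - 1) 0) {p : ℕ}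
    (h1 : o.getD m 0 = p) (hp : p < m) (hpm : p + 1 ≠ m) :
    Hit Q (loop ih m S z a q C O Z 24 (Nat.land O (Nat.shiftRight O 1))) := by
  have hop : o.getD p 0 = m := by rw [← h1]; exact (h.inv m hm).2
  have h2 := open_next h hm hc h1 hp hpm
  refine hit_loop hex p (hit_close h (by omega) hih hI hm h1 hp q (by rw [if_neg hpm, add_zero])) 24 _ ?_ ?_
  · show (O &&& O >>> 1).testBit p = true
    rw [Nat.testBit_and, Nat.testBit_shiftRight, hI.hO, hI.hO, hop, add_comm 1 p]
    simp only [Bool.and_eq_true, decide_eq_true_eq]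
    omega
  · show (O &&& O >>> 1) < 2 ^ 24
    apply Nat.lt_pow_two_of_testBit
    intro i hi
    rw [Nat.testBit_and, hI.hO, decide_eq_false (by omega), Bool.false_and]

lemma hit_atStart (h : Adm L r s N o) (hL : L ≤ 24) (hih : HitS Q L o (m + 1) ih) (hex : ExtS ih)
    (hI : Inv L o m S z a q C O Z) (hm : m < L) (hc : start o m = m ∨ m ≤ o.getD (m - 1) 0)
    (h1 : o.getD m 0 ≠ m) (h2 : o.getD m 0 + 1 ≠ m) : Hit Q (atStart ih m S z a q C O Z) := by
  intro acc
  rcases lt_or_gt_of_ne h1 with h3 | h3
  · obtain ⟨x, hx, hQ⟩ := hit_closings h hL hih hex hI hm hc rfl h3 h2 acc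
    exact ⟨x, ext_fresh hex _ _ _ _ _ _ _ _ _ x hx, hQ⟩
  · exact hit_fresh h hih hI hm h3 _

lemma hit_noprev (h : Adm L r s N o) (hL : L ≤ 24) (hih : HitS Q L o (m + 1) ih) (hex : ExtS ih)
    (hI : Inv L o m S z a q C O Z) (hm : m < L) (hS : start o m < m) (hc : m ≤ o.getD (m - 1) 0)
    {last : Bool} (hlast : last = true ↔ m + 1 = L) : Hit Q (noprev r last ih m S z a q C O Z) := by
  have hne := ne_of_start_le (o := o) (x := m - 1) (t := m) (by omega) (by omega)
  by_cases h1 : o.getD m 0 = m
  · -- a boundary component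
    have h2 : next o m = S := by rw [next_of_eq h1, hI.hS]
    have h3 := next_partner h (x := m - 1) (by omega) hne
    have h4 : m - 1 + 1 = m := by omega
    rw [h4] at h3
    have h5 := (h.inv (m - 1) (by omega)).1
    have h6 := h.cube _ h5
    rw [h3, h2] at h6
    have h7 : o.getD S 0 ≠ S := ne_of_start_le (t := m) (by rw [hI.hS]) (by rw [hI.hS]; exact hS)
    rw [next_of_ne h7] at h6
    have hSm : S < m := by rw [hI.hS]; exact hS
    have h8 : m ≤ o.getD S 0 := by
      by_contra h9
      have h10 : o.getD S 0 = m - 1 := by omega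
      have h11 := (h.inv S (by omega)).2
      rw [h10] at h11
      omega
    have h9 : S + 1 ≠ m := by
      intro h9
      have h10 : S = m - 1 := by omega
      rw [h10] at h6
      omega
    intro acc
    have e1 : Nat.beq (Nat.succ S) m = false := beq_false_of_ne h9
    have e2 : tst O S = true := by
      rw [tst_eq, hI.hO, decide_eq_true_eq]
      omega
    obtain ⟨x, hx, hQ⟩ := hit_zero h (by omega) hih hI hm h1 hlast acc
    refine ⟨x, ext_atStart hex _ _ _ _ _ _ _ _ _ x (ext_mono hex _ _ _ _ _ _ _ _ _ x ?_), hQ⟩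
    rw [e1, e2]
    exact hx
  · by_cases h2 : o.getD m 0 + 1 = m
    · intro acc
      have h3 : next o m = m := by rw [next_of_ne h1, h2]
      have h4 := hI.hq
      rw [card_Ico_succ _ hm, if_pos h3] at h4
      obtain ⟨q', rfl⟩ : ∃ q', q = q' + 1 := ⟨_, by rw [h4, add_comm]⟩
      have h5 : Nat.pred m = o.getD m 0 := by rw [Nat.pred_eq_sub_one]; omega
      obtain ⟨x, hx, hQ⟩ := hit_close h (by omega) hih hI hm rfl (by omega) q' (by rw [if_pos h2])
        (bif Nat.beq (Nat.succ S) m then acc else (bif tst O S then zero r last ih m S z a (q' + 1) C O Z acc else acc))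
      refine ⟨x, ext_atStart hex _ _ _ _ _ _ _ _ _ x ?_, hQ⟩
      show x ∈ close ih (Nat.pred m) m S z a q' C O Z _
      rw [h5]
      exact hx
    · exact fun acc => hit_atStart h hL hih hex hI hm (Or.inr hc) h1 h2 _

lemma prev_spec (h : Adm L r s N o) (hI : Inv L o m S z a q C O Z) (hm : m < L) {u : ℕ} (hu : u < m) :
    (∀ t, prev C Z S u = t + 1 → t < m ∧ next o t = u) ∧
      (prev C Z S u = 0 → ∀ x < L, next o x = u → m ≤ x) := by
  unfold prev
  by_cases h1 : u = S
  · have e1 : Nat.beq u S = true := by rw [h1]; exact Nat.beq_refl S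
    rw [e1]
    refine ⟨fun t ht => absurd ht (Nat.succ_ne_zero t).symm, fun _ x hx hxu => ?_⟩
    by_contra h2
    push Not at h2
    by_cases h3 : o.getD x 0 = x
    · rw [next_of_eq h3] at hxu
      have h4 := start_le o x
      exact ne_of_start_le (t := m) (x := x) (by rw [← hI.hS, ← h1, ← hxu]; exact h4) h2 h3
    · rw [next_of_ne h3] at hxu
      rcases start_cases o m with h4 | ⟨k, h4, h5⟩
      · rw [← hI.hS] at h4; omega
      · rw [← hI.hS] at h4
        have h6 : o.getD x 0 = k := by omega
        have h7 := (h.inv x hx).2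
        rw [h6, h5] at h7
        omega
  · have e1 : Nat.beq u S = false := beq_false_of_ne h1
    rw [e1]
    show (∀ t, (Nat.rec (motive := fun _ => ℕ) (dig C (Nat.pred u)) (fun d _ => Nat.succ d) (dig Z u)) = t + 1 → _) ∧
      ((Nat.rec (motive := fun _ => ℕ) (dig C (Nat.pred u)) (fun d _ => Nat.succ d) (dig Z u)) = 0 → _)
    have hz : dig Z u = Zf o m u := hI.hZ u
    rcases hd : Zf o m u with _ | d
    · rw [hz, hd]
      show (∀ t, dig C (Nat.pred u) = t + 1 → _) ∧ (dig C (Nat.pred u) = 0 → _)
      have hst : start o u ≠ u := by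
        intro h2
        rcases Nat.lt_or_ge u (start o m) with h3 | h3
        · exact Zf_ne_zero h3 h2 hd
        · have := start_eq_of_le h3 (by omega : u ≤ m)
          rw [← hI.hS] at this
          omega
      have hu0 : u ≠ 0 := by
        rintro rfl
        exact hst rfl
      obtain ⟨v, rfl⟩ : ∃ v, u = v + 1 := ⟨u - 1, by omega⟩
      have hv : o.getD v 0 ≠ v := by
        intro h2
        exact hst (by rw [start_succ, if_pos h2])
      have hCv : dig C v = if v < m ∧ o.getD v 0 < m then o.getD v 0 + 1 else 0 := hI.hC v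
      rw [Nat.pred_succ, hCv]
      have hpv := next_partner h (x := v) (by omega) hv
      constructor
      · intro t ht
        split_ifs at ht with h2
        · have : t = o.getD v 0 := by omega
          rw [this]
          exact ⟨h2.2, hpv⟩
      · intro h0 x hx hxu
        split_ifs at h0 with h2
        · by_cases h3 : o.getD x 0 = x
          · exfalso
            rw [next_of_eq h3] at hxu
            rcases start_cases o x with h4 | ⟨k, h4, h5⟩
            · omega
            · have : k = v := by omega
              rw [this] at h5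
              exact hv h5
          · rw [next_of_ne h3] at hxu
            have h4 : o.getD x 0 = v := by omega
            have h5 := (h.inv x hx).2
            rw [h4] at h5
            omega
    · rw [hz, hd]
      show (∀ t, d + 1 = t + 1 → _) ∧ (d + 1 = 0 → _)
      obtain ⟨h2, h3, h4⟩ := Zf_spec hd
      refine ⟨fun t ht => ?_, fun h0 => absurd h0 (Nat.succ_ne_zero d)⟩
      have : t = d := by omega
      rw [this, next_of_eq h3]
      exact ⟨h2, h4⟩

lemma hit_withPrev (h : Adm L r s N o) (hL : L ≤ 24) (hih : HitS Q L o (m + 1) ih)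
    (hI : Inv L o m S z a q C O Z) (hm : m < L) (hS : start o m < m) {u : ℕ} (hu : o.getD (m - 1) 0 = u) (hum : u < m)
    {last : Bool} (hlast : last = true ↔ m + 1 = L) (acc : List α) :
    ∃ x ∈ withPrev r last ih m S z a q C O Z acc u, Q x := by
  have hne := ne_of_start_le (o := o) (x := m - 1) (t := m) (by omega) (by omega)
  have h3 := next_partner h (x := m - 1) (by omega) hne
  have h4 : m - 1 + 1 = m := by omega
  rw [h4, hu] at h3
  have h5 := h.cube u (by omega)
  rw [h3] at h5
  obtain ⟨h6, h7⟩ := prev_spec h hI hm hum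
  have hyL := next_lt h hm
  have hSm : S < m := by rw [hI.hS]; exact hS
  have hS0 : S = 0 ∨ ∃ k, S = k + 1 ∧ o.getD k 0 = k := by rw [hI.hS]; exact start_cases o m
  unfold withPrev
  rcases hp : prev C Z S u with _ | t
  · -- the corner before `u` is not known
    have h8 := h7 hp _ hyL h5
    have h9 : o.getD m 0 ≠ m := by
      intro h9
      rw [next_of_eq h9, ← hI.hS] at h8
      omega
    rw [next_of_ne h9] at h8
    have h10 : o.getD m 0 ≠ m - 1 := by
      intro h10
      have := (h.inv m hm).2
      rw [h10] at this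
      omega
    exact hit_fresh h hih hI hm (by omega) acc
  · obtain ⟨h8, h9⟩ := h6 t hp
    have h10 : next o m = t := next_inj h hyL (by omega) (by rw [h5, h9])
    show ∃ x ∈ forced r last ih m S z a q C O Z acc t, Q x
    unfold forced
    by_cases h11 : t = S
    · have e1 : Nat.beq t S = true := by rw [h11]; exact Nat.beq_refl S
      rw [e1]
      have h12 : o.getD m 0 = m := by
        by_contra h12
        rw [next_of_ne h12] at h10
        rcases hS0 with h13 | ⟨k, h13, h14⟩
        · omega
        · have h15 : o.getD m 0 = k := by omega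
          have h16 := (h.inv m hm).2
          rw [h15, h14] at h16
          omega
      exact hit_zero h (by omega) hih hI hm h12 hlast acc
    · have e1 : Nat.beq t S = false := beq_false_of_ne h11
      rw [e1]
      have h12 : o.getD m 0 ≠ m := by
        intro h12
        rw [next_of_eq h12, ← hI.hS] at h10
        omega
      rw [next_of_ne h12] at h10
      subst h10
      show ∃ x ∈ (bif tst O (o.getD m 0) then close ih (o.getD m 0) m S z a q C O Z acc else acc), Q x
      have e2 : tst O (o.getD m 0) = true := by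
        rw [tst_eq, hI.hO, decide_eq_true_eq]
        have := (h.inv m hm).2
        omega
      rw [e2]
      exact hit_close h (by omega) hih hI hm rfl (by omega) q (by rw [if_neg (by omega), add_zero]) acc

lemma hit_step (h : Adm L r s N o) (hL : L ≤ 24) (hih : HitS Q L o (m + 1) ih) (hex : ExtS ih) (hm : m < L)
    {last : Bool} (hlast : last = true ↔ m + 1 = L) : HitS Q L o m (step r ih last) := by
  intro S z a q C O Z hI acc
  unfold step
  by_cases h1 : m = S
  · have e1 : Nat.beq m S = true := by rw [h1]; exact Nat.beq_refl S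
    rw [e1]
    have h2 : start o m = m := by rw [← hI.hS]; exact h1.symm
    refine hit_atStart h hL hih hex hI hm (Or.inl h2) (h.ne m hm h2) ?_ acc
    intro h3
    have h4 := (h.inv m hm).2
    rcases start_cases o m with h5 | ⟨k, h5, h6⟩
    · omega
    · have h7 : o.getD m 0 = k := by omega
      rw [h7] at h4
      omega
  · have e1 : Nat.beq m S = false := beq_false_of_ne h1
    rw [e1]
    have hS : start o m < m := by
      have := start_le o m
      have := hI.hS
      omega
    have hC : dig C (Nat.pred m) = if m - 1 < m ∧ o.getD (m - 1) 0 < m then o.getD (m - 1) 0 + 1 else 0 :=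
      hI.hC (m - 1)
    by_cases h2 : o.getD (m - 1) 0 < m
    · rw [if_pos ⟨by omega, h2⟩] at hC
      show ∃ x ∈ (Nat.rec (motive := fun _ => List α) (noprev r last ih m S z a q C O Z acc)
        (fun u _ => withPrev r last ih m S z a q C O Z acc u) (dig C (Nat.pred m))), Q x
      rw [hC]
      exact hit_withPrev h hL hih hI hm hS rfl h2 hlast acc
    · rw [if_neg (by tauto)] at hC
      show ∃ x ∈ (Nat.rec (motive := fun _ => List α) (noprev r last ih m S z a q C O Z acc)
        (fun u _ => withPrev r last ih m S z a q C O Z acc u) (dig C (Nat.pred m))), Q x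
      rw [hC]
      exact hit_noprev h hL hih hex hI hm hS (by omega) hlast acc

/-- The search from the state `m` finds the family. -/
theorem hit_srch (h : Adm L r s N o) (hL : L ≤ 24) {base : St α} (hb : HitS Q L o L base) (hex : ExtS base) (n : ℕ) :
    ∀ m, m + n = L → HitS Q L o m (srch r base n) := by
  induction n with
  | zero =>
    intro m hm
    have : m = L := by omega
    rw [this]; exact hb
  | succ n ihn =>
    intro m hm
    refine hit_step h hL (ihn (m + 1) (by omega)) (ext_srch hex n) (by omega) ?_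
    constructor
    · intro h1
      have := Nat.eq_of_beq_eq_true h1
      omega
    · intro h1
      have : n = 0 := by omega
      rw [this]; rfl

theorem hit_srchF (h : Adm L r s N o) (hL : L ≤ 24) {base : St α} (k' : ℕ) (hk' : k' < L) (hb : HitS Q L o k' base)
    (hex : ExtS base) (k : ℕ) :
    ∀ m, m + k = k' → HitS Q L o m (srchF r base k) := by
  induction k with
  | zero =>
    intro m hm
    have : m = k' := by omega
    rw [this]; exact hb
  | succ n ihn =>
    intro m hm
    refine hit_step h hL (ihn (m + 1) (by omega)) (ext_srchF hex n) (by omega) ?_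
    constructor
    · intro h1
      exact absurd h1 (by simp)
    · intro h1
      omega

end

/-! ### the two stages of the search -/

/-- the code of a family in the search -/
def code1 (o : List ℕ) : ℕ := orf o.length (fun t => (o.getD t 0 + 1) <<< (5 * t))

lemma dg_code1 (h : Adm L r s N o) (hL : L ≤ 24) (t : ℕ) : dg 5 (code1 o) t = if t < L then o.getD t 0 + 1 else 0 := by
  unfold code1
  rw [h.len, dg_orf]
  have h1 : ∀ j < L, dg 5 ((o.getD j 0 + 1) <<< (5 * j)) t = if t = j then o.getD j 0 + 1 else 0 := by
    intro j hj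
    have := dg_put 0 (o.getD j 0 + 1) j t (by have := (h.inv j hj).1; omega)
    rw [Nat.zero_or, dg_zero, Nat.zero_or] at this
    exact this
  rw [orf_congr _ _ _ h1]
  split_ifs with ht
  · rw [orf_single _ _ t ht (fun j _ hj => if_neg (Ne.symm hj)), if_pos rfl]
  · exact orf_zero_fun _ _ (fun j hj => if_neg (by omega))

lemma ext_leaf : ExtS leaf := by
  intro m S z a q C O Z acc y hy
  unfold leaf
  cases Nat.beq q 0
  · exact hy
  · exact List.mem_cons_of_mem _ hy

lemma hit_leaf (h : Adm L r s N o) (hL : L ≤ 24) : HitS (fun x => x = code1 o) L o L leaf := by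
  intro S z a q C O Z hI acc
  have h1 : q = 0 := by rw [hI.hq]; simp
  have h2 : C = code1 o := by
    apply eq_of_dg 5 (by omega)
    intro t
    rw [hI.hC, dg_code1 h hL]
    by_cases ht : t < L
    · rw [if_pos ⟨ht, (h.inv t ht).1⟩, if_pos ht]
    · rw [if_neg (by omega), if_neg ht]
  subst h1
  exact ⟨C, List.mem_cons_self, h2⟩

lemma ext_node : ExtS node := fun _ _ _ _ _ _ _ _ _ _ hy => List.mem_cons_of_mem _ hy

/-- the state `x` is the state of the search for `o` -/
def InvL (L : ℕ) (o : List ℕ) (m : ℕ) (x : List ℕ) : Prop :=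
  ∃ S z a q C O Z, x = [m, S, z, a, q, C, O, Z] ∧ Inv L o m S z a q C O Z

lemma hit_node (m : ℕ) : HitS (InvL L o m) L o m node := by
  intro S z a q C O Z hI acc
  exact ⟨[m, S, z, a, q, C, O, Z], List.mem_cons_self, S, z, a, q, C, O, Z, rfl, hI⟩

/-- The frontier contains the state of every family. -/
theorem mem_front (h : Adm L r s N o) (hL : L ≤ 24) (k : ℕ) (hk : k < L) :
    ∃ x ∈ srchF r node k 0 0 0 N s 0 0 0 [], InvL L o k x :=
  hit_srchF h hL k hk (hit_node k) ext_node k 0 (by omega) _ _ _ _ _ _ _ (Inv.init h) []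

/-- The search from the state of a family finds the family. -/
theorem mem_srchL (h : Adm L r s N o) (hL : L ≤ 24) {m n : ℕ} (hmn : m + n = L) {x : List ℕ} (hx : InvL L o m x) :
    code1 o ∈ srchL r n x := by
  obtain ⟨S, z, a, q, C, O, Z, rfl, hI⟩ := hx
  obtain ⟨y, h1, h2⟩ := hit_srch h hL (hit_leaf h hL) ext_leaf n m hmn _ _ _ _ _ _ _ hI []
  rw [← h2]
  exact h1

/-! ### equality of lists -/

lemma eq_of_eqL {l l' : List ℕ} (h : eqL l l' = true) : l = l' := by
  induction l generalizing l' with
  | nil =>
    rcases l' with _ | ⟨y, t⟩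
    · rfl
    · exact absurd h (by intro h; exact Bool.noConfusion h)
  | cons x l ih =>
    rcases l' with _ | ⟨y, t⟩
    · exact absurd h (by intro h; exact Bool.noConfusion h)
    · have h1 : (bif Nat.beq x y then eqL l t else false) = true := h
      rcases hb : Nat.beq x y with _ | _
      · rw [hb] at h1; exact absurd h1 (by simp)
      · rw [hb] at h1
        rw [Nat.eq_of_beq_eq_true hb, ih h1]

lemma eq_of_eqLL {l l' : List (List ℕ)} (h : eqLL l l' = true) : l = l' := by
  induction l generalizing l' with
  | nil =>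
    rcases l' with _ | ⟨y, t⟩
    · rfl
    · exact absurd h (by intro h; exact Bool.noConfusion h)
  | cons x l ih =>
    rcases l' with _ | ⟨y, t⟩
    · exact absurd h (by intro h; exact Bool.noConfusion h)
    · have h1 : (bif eqL x y then eqLL l t else false) = true := h
      rcases hb : eqL x y with _ | _
      · rw [hb] at h1; exact absurd h1 (by simp)
      · rw [hb] at h1
        rw [eq_of_eqL hb, ih h1]

end Pool.Agent.H96.Arc
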