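import Pool.Agent.H96.Arc.Defs

/-!
# Elementary facts about maximal arc families
-/

namespace Pool.Agent.H96.Arc

variable {o : List ℕ}

lemma start_succ (o : List ℕ) (t : ℕ) : start o (t + 1) = if o.getD t 0 = t then t + 1 else start o t := rfl

lemma window_succ (o : List ℕ) (t : ℕ) : window o (t + 1) = if o.getD t 0 = t then window o t + 1 else window o t :=
  rfl

lemma start_le (o : List ℕ) (t : ℕ) : start o t ≤ t := by
  induction t with
  | zero => exact le_refl _
  | succ t ih =>
    rw [start_succ]
    split_ifs
    · exact le_refl _
    · omega

lemma start_cases (o : List ℕ) (t : ℕ) : start o t = 0 ∨ ∃ k, start o t = k + 1 ∧ o.getD k 0 = k := by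
  induction t with
  | zero => exact Or.inl rfl
  | succ t ih =>
    rw [start_succ]
    split_ifs with h
    · exact Or.inr ⟨t, rfl, h⟩
    · exact ih

lemma ne_of_start_le {x t : ℕ} (h : start o t ≤ x) (hx : x < t) : o.getD x 0 ≠ x := by
  induction t with
  | zero => omega
  | succ t ih =>
    rw [start_succ] at h
    split_ifs at h with h1
    · omega
    · rcases Nat.lt_or_ge x t with h2 | h2
      · exact ih h h2
      · have : x = t := by omega
        rw [this]; exact h1

lemma start_eq_of_le {x t : ℕ} (h : start o t ≤ x) (hx : x ≤ t) : start o x = start o t := by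
  induction t with
  | zero =>
    have : x = 0 := by omega
    rw [this]
  | succ t ih =>
    rcases Nat.lt_or_ge x (t + 1) with h2 | h2
    · rw [start_succ] at h ⊢
      split_ifs at h ⊢ with h1
      · omega
      · exact ih h (by omega)
    · have : x = t + 1 := by omega
      rw [this]

lemma start_start (o : List ℕ) (t : ℕ) : start o (start o t) = start o t :=
  start_eq_of_le (le_refl _) (start_le o t)

lemma window_le_succ (o : List ℕ) (t : ℕ) : window o t ≤ window o (t + 1) := by
  rw [window_succ]; split_ifs <;> omega

lemma window_mono (o : List ℕ) : Monotone (window o) := monotone_nat_of_le_succ (window_le_succ o)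

lemma window_eq_card (o : List ℕ) (t : ℕ) : window o t = ((Finset.range t).filter (fun x => o.getD x 0 = x)).card := by
  induction t with
  | zero => rfl
  | succ t ih =>
    rw [window_succ, Finset.range_add_one, Finset.filter_insert]
    split_ifs with h
    · rw [Finset.card_insert_of_notMem (by simp), ih]
    · exact ih

/-- A window is determined by its number. -/
lemma eq_of_window {t x : ℕ} (h1 : start o t = t) (h2 : o.getD t 0 = t) (h : window o x = window o t) : x = t := by
  by_contra hne
  rcases lt_or_gt_of_ne hne with h3 | h3
  · rcases start_cases o t with h4 | ⟨k, h4, h5⟩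
    · omega
    · have h6 : t = k + 1 := by omega
      have h7 : window o t = window o k + 1 := by rw [h6, window_succ, if_pos h5]
      have h8 : window o x ≤ window o k := window_mono o (by omega)
      omega
  · have h4 : window o (t + 1) = window o t + 1 := by rw [window_succ, if_pos h2]
    have h5 : window o (t + 1) ≤ window o x := window_mono o (by omega)
    omega

/-- The facts which are used by the search. -/
structure Adm (L r s N : ℕ) (o : List ℕ) : Prop where
  len : o.length = L
  pos : 0 < L
  inv : ∀ t < L, o.getD t 0 < L ∧ o.getD (o.getD t 0) 0 = t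
  win : window o L = r
  last : o.getD (L - 1) 0 = L - 1
  cube : ∀ t < L, next o (next o (next o t)) = t
  fix : ((Finset.range L).filter (fun t => next o t = t)).card = s
  open_ : ((Finset.range L).filter (fun t => t < o.getD t 0)).card = N
  ne : ∀ t < L, start o t = t → o.getD t 0 ≠ t

lemma next_of_eq {t : ℕ} (h : o.getD t 0 = t) : next o t = start o t := if_pos h

lemma next_of_ne {t : ℕ} (h : o.getD t 0 ≠ t) : next o t = o.getD t 0 + 1 := if_neg h

namespace IsMax

variable {g r s : ℕ} {p : List ℕ}

/-- all regions have the order of their rotation dividing three -/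
lemma cube (h : IsMax g r s o p) : ∀ t < o.length, next o (next o (next o t)) = t := by
  intro t ht
  by_cases hp : t ∈ p
  · have := (h.punct.2.2 t hp).2
    rw [this, this, this]
  · exact (h.tri t ht hp).2

lemma fix_iff (h : IsMax g r s o p) {t : ℕ} (ht : t < o.length) : next o t = t ↔ t ∈ p := by
  constructor
  · intro h1
    by_contra hp
    exact (h.tri t ht hp).1 h1
  · intro hp
    exact (h.punct.2.2 t hp).2

lemma card_fix (h : IsMax g r s o p) : ((Finset.range o.length).filter (fun t => next o t = t)).card = s := by
  have : (Finset.range o.length).filter (fun t => next o t = t) = p.toFinset := by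
    ext t
    rw [Finset.mem_filter, Finset.mem_range, List.mem_toFinset]
    constructor
    · rintro ⟨h1, h2⟩
      exact (h.fix_iff h1).mp h2
    · intro hp
      exact ⟨(h.punct.2.2 t hp).1, (h.punct.2.2 t hp).2⟩
  rw [this, List.toFinset_card_of_nodup h.punct.2.1, h.punct.1]

lemma card_open (h : IsMax g r s o p) : ((Finset.range o.length).filter (fun t => t < o.getD t 0)).card = top g r s := by
  have h1 : ((Finset.range o.length).filter (fun t => t < o.getD t 0)).card =
      ((Finset.range o.length).filter (fun t => o.getD t 0 < t)).card := by
    refine Finset.card_bij (fun t _ => o.getD t 0) ?_ ?_ ?_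
    · intro t ht
      rw [Finset.mem_filter, Finset.mem_range] at ht ⊢
      obtain ⟨h1, h2⟩ := h.invol t ht.1
      exact ⟨h1, by rw [h2]; exact ht.2⟩
    · intro t ht t' ht' he
      rw [Finset.mem_filter, Finset.mem_range] at ht ht'
      have h1 := (h.invol t ht.1).2
      have h2 := (h.invol t' ht'.1).2
      have he' : o.getD t 0 = o.getD t' 0 := he
      rw [he', h2] at h1
      exact h1.symm
    · intro t ht
      rw [Finset.mem_filter, Finset.mem_range] at ht
      obtain ⟨h1, h2⟩ := h.invol t ht.1
      refine ⟨o.getD t 0, ?_, h2⟩
      rw [Finset.mem_filter, Finset.mem_range]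
      exact ⟨h1, by rw [h2]; exact ht.2⟩
  have h2 := window_eq_card o o.length
  rw [h.bdry.1] at h2
  have h3 : (Finset.range o.length).card = ((Finset.range o.length).filter (fun t => t < o.getD t 0)).card +
      (((Finset.range o.length).filter (fun t => o.getD t 0 < t)).card +
      ((Finset.range o.length).filter (fun t => o.getD t 0 = t)).card) := by
    have e1 : Finset.range o.length = ((Finset.range o.length).filter (fun t => t < o.getD t 0)) ∪
        (((Finset.range o.length).filter (fun t => o.getD t 0 < t)) ∪
        ((Finset.range o.length).filter (fun t => o.getD t 0 = t))) := by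
      ext t
      simp only [Finset.mem_union, Finset.mem_filter]
      have := lt_trichotomy t (o.getD t 0)
      constructor
      · intro ht
        rcases this with h | h | h
        · exact Or.inl ⟨ht, h⟩
        · exact Or.inr (Or.inr ⟨ht, h.symm⟩)
        · exact Or.inr (Or.inl ⟨ht, h⟩)
      · rintro (h | h | h) <;> exact h.1
    conv_lhs => rw [e1]
    rw [Finset.card_union_of_disjoint, Finset.card_union_of_disjoint]
    · rw [Finset.disjoint_left]
      intro t h1 h2
      rw [Finset.mem_filter] at h1 h2
      omega
    · rw [Finset.disjoint_left]
      intro t h1 h2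
      rw [Finset.mem_union, Finset.mem_filter, Finset.mem_filter] at h2
      rw [Finset.mem_filter] at h1
      omega
  rw [Finset.card_range, ← h1, ← h2, h.length] at h3
  rw [h.length] at *
  omega

lemma ne_start (h : IsMax g r s o p) (hr : 2 ≤ r) : ∀ t < o.length, start o t = t → o.getD t 0 ≠ t := by
  intro t ht h1 h2
  have h3 : window o t < r := by
    rw [← h.bdry.1]
    have h4 : window o (t + 1) = window o t + 1 := by rw [window_succ, if_pos h2]
    have h5 : window o (t + 1) ≤ window o o.length := window_mono o (by omega)
    omega
  have key : ∀ x, window o x = window o t → x = t := fun x hx => eq_of_window h1 h2 hx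
  by_cases h0 : window o t = 0
  · have h4 := h.conn {0} rfl (by
      intro x hx hw
      rw [Set.mem_singleton_iff] at hw ⊢
      rw [key x (by omega), h2, h0]) 1 (by omega)
    simp at h4
  · have h4 := h.conn {i | i ≠ window o t} (fun h5 => h0 h5.symm) (by
      intro x hx hw hw'
      have h5 := key _ hw'
      have h6 := (h.invol x hx).2
      rw [h5, h2] at h6
      exact hw (by rw [h6])) (window o t) h3
    exact h4 rfl

lemma adm (h : IsMax g r s o p) (hr : 2 ≤ r) : Adm (2 * top g r s + r) r s (top g r s) o where
  len := h.length
  pos := by omega
  inv := by rw [← h.length]; exact h.invol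
  win := by rw [← h.length]; exact h.bdry.1
  last := by rw [← h.length]; exact h.bdry.2
  cube := by rw [← h.length]; exact h.cube
  fix := by rw [← h.length]; exact h.card_fix
  open_ := by rw [← h.length]; exact h.card_open
  ne := by rw [← h.length]; exact h.ne_start hr

end IsMax

end Pool.Agent.H96.Arc
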